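import Mathlib

/-!
Small `L²` toolbox used for Theorem R.
-/

open MeasureTheory Set Filter Topology
open scoped ENNReal RealInnerProductSpace

namespace Pool.Agent.H47.FQ

section

variable {α : Type*} [MeasurableSpace α] {μ : Measure α} {f g : α → ℝ}
  {E : Type*} [NormedAddCommGroup E] {F G : α → E}

theorem int_mul (hf : MemLp f 2 μ) (hg : MemLp g 2 μ) : Integrable (fun z => f z * g z) μ :=
  hf.integrable_mul hg

theorem int_sq (hf : MemLp f 2 μ) : Integrable (fun z => f z ^ 2) μ := hf.integrable_sq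

theorem int_norm_sq (hF : MemLp F 2 μ) : Integrable (fun z => ‖F z‖ ^ 2) μ :=
  (memLp_two_iff_integrable_sq_norm hF.1).1 hF

theorem int_abs_mul (hf : MemLp f 2 μ) (hg : MemLp g 2 μ) :
    Integrable (fun z => |f z| * |g z|) μ := by
  have := (int_mul hf hg).norm
  simpa [abs_mul] using this

theorem int_inner [InnerProductSpace ℝ E] (hF : MemLp F 2 μ) (hG : MemLp G 2 μ) :
    Integrable (fun z => (⟪F z, G z⟫ : ℝ)) μ := by
  have h := (hF.norm).integrable_mul (hG.norm)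
  refine Integrable.mono' h (hF.1.inner hG.1) ?_
  filter_upwards with z
  simpa using norm_inner_le_norm (𝕜 := ℝ) (F z) (G z)

theorem cs_abs (hf : MemLp f 2 μ) (hg : MemLp g 2 μ) :
    ∫ z, |f z| * |g z| ∂μ ≤ Real.sqrt (∫ z, f z ^ 2 ∂μ) * Real.sqrt (∫ z, g z ^ 2 ∂μ) := by
  have h2 : (2 : ℝ).HolderConjugate 2 := Real.HolderConjugate.two_two
  have h := integral_mul_le_Lp_mul_Lq_of_nonneg (μ := μ) h2 (f := fun z => |f z|)
    (g := fun z => |g z|) (Eventually.of_forall fun z => abs_nonneg _)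
    (Eventually.of_forall fun z => abs_nonneg _) (by simpa using hf.norm) (by simpa using hg.norm)
  have e1 : ∀ k : α → ℝ, (∫ a, |k a| ^ (2 : ℝ) ∂μ) ^ (1 / (2 : ℝ))
      = Real.sqrt (∫ z, k z ^ 2 ∂μ) := by
    intro k
    rw [Real.sqrt_eq_rpow]
    congr 1
    refine integral_congr_ae (Eventually.of_forall fun z => ?_)
    simp
  rw [e1 f, e1 g] at h
  exact h

theorem cs_mul (hf : MemLp f 2 μ) (hg : MemLp g 2 μ) :
    |∫ z, f z * g z ∂μ| ≤ Real.sqrt (∫ z, f z ^ 2 ∂μ) * Real.sqrt (∫ z, g z ^ 2 ∂μ) := by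
  refine le_trans ?_ (cs_abs hf hg)
  refine le_trans (abs_integral_le_integral_abs) ?_
  simp only [abs_mul]
  exact le_refl _

theorem cs_inner [InnerProductSpace ℝ E] (hF : MemLp F 2 μ) (hG : MemLp G 2 μ) :
    |∫ z, (⟪F z, G z⟫ : ℝ) ∂μ| ≤
      Real.sqrt (∫ z, ‖F z‖ ^ 2 ∂μ) * Real.sqrt (∫ z, ‖G z‖ ^ 2 ∂μ) := by
  refine le_trans ?_ (cs_abs hF.norm hG.norm)
  refine le_trans (abs_integral_le_integral_abs) ?_
  refine integral_mono_ae (int_inner hF hG).abs ?_ ?_
  · simpa using (int_abs_mul hF.norm hG.norm)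
  · filter_upwards with z
    simpa using abs_real_inner_le_norm (F z) (G z)

/-- squares of `L²` distances -/
theorem eLpNorm_two_sq (hF : MemLp F 2 μ) :
    (eLpNorm F 2 μ).toReal ^ 2 = ∫ z, ‖F z‖ ^ 2 ∂μ := by
  have h := hF.eLpNorm_eq_integral_rpow_norm (by norm_num) (by norm_num)
  rw [h]
  have hnn : 0 ≤ ∫ z, ‖F z‖ ^ (2 : ℝ) ∂μ := by positivity
  rw [ENNReal.toReal_ofReal (by positivity)]
  have e2 : (ENNReal.toReal 2) = (2 : ℝ) := by simp
  rw [e2, ← Real.rpow_natCast, ← Real.rpow_mul hnn]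
  norm_num

/-- convergence in `L²` from convergence of the integral of the square -/
theorem tendsto_eLpNorm_iff {F' : ℕ → α → E} (hF : ∀ n, MemLp (F' n) 2 μ) :
    Tendsto (fun n => eLpNorm (F' n) 2 μ) atTop (𝓝 0) ↔
      Tendsto (fun n => ∫ z, ‖F' n z‖ ^ 2 ∂μ) atTop (𝓝 0) := by
  rw [← ENNReal.tendsto_toReal_iff (fun n => (hF n).2.ne) (by simp)]
  simp only [← eLpNorm_two_sq (hF _), ENNReal.toReal_zero]
  constructor
  · intro h
    simpa using h.pow 2
  · intro h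
    have := h.sqrt
    simpa [Real.sqrt_sq ENNReal.toReal_nonneg] using this

end

end Pool.Agent.H47.FQ
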