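import Pool.Agent.H41.Ev.Defs
import Pool.Agent.H47.Ev.L2

/-!
Theorem R, fourth part: approximation of a bounded potential by step functions on a grid.
-/

open MeasureTheory Set Metric Filter Topology ContDiff
open scoped ENNReal RealInnerProductSpace

namespace Pool.Agent.H41.Ev

open Pool.Agent.H47.FQ

variable {U : Set ℂ} {V : ℂ → ℝ}

/-- First step: restriction to a compact subset. -/
theorem exists_compact_approx (hU : IsOpen U) (hV : MemLp V 2 volume)
    (hVU : ∀ᵐ z, z ∉ U → V z = 0) {ε : ℝ≥0∞} (hε : 0 < ε) :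
    ∃ K : Set ℂ, IsCompact K ∧ K ⊆ U ∧ eLpNorm (fun z => V z - K.indicator V z) 2 volume ≤ ε := by
  obtain ⟨F, hFc, hFU, hFun, hFm⟩ := hU.exists_iUnion_isClosed
  set K : ℕ → Set ℂ := fun n => F n ∩ closedBall 0 n with hK
  have hKc : ∀ n, IsCompact (K n) := fun n =>
    (isCompact_closedBall (0 : ℂ) n).inter_left (hFc n)
  have hmeas : ∀ n, MeasurableSet (K n) := fun n => (hKc n).measurableSet
  have hmem : ∀ n, MemLp (fun z => V z - (K n).indicator V z) 2 (volume : Measure ℂ) := fun n =>
    hV.sub (hV.indicator (hmeas n))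
  have hlim : Tendsto (fun n => eLpNorm (fun z => V z - (K n).indicator V z) 2 volume) atTop
      (𝓝 0) := by
    rw [tendsto_eLpNorm_iff hmem]
    have h0 : (0 : ℝ) = ∫ z : ℂ, (0 : ℝ) := by simp
    rw [h0]
    refine tendsto_integral_of_dominated_convergence (fun z => ‖V z‖ ^ 2)
      (fun n => (hmem n).1.norm.pow 2) (int_norm_sq hV) ?_ ?_
    · intro n
      refine Eventually.of_forall fun z => ?_
      rw [norm_pow, norm_norm]
      by_cases h : z ∈ K n
      · simp [h, sq_nonneg]
      · simp [h]
    · filter_upwards [hVU] with z hz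
      by_cases hzU : z ∈ U
      · have h1 : ∀ᶠ n in atTop, z ∈ K n := by
          rw [← hFun] at hzU
          obtain ⟨n0, hn0⟩ := mem_iUnion.1 hzU
          obtain ⟨m, hm⟩ := exists_nat_ge ‖z‖
          filter_upwards [eventually_ge_atTop (max n0 m)] with n hn
          refine ⟨hFm ((le_max_left _ _).trans hn) hn0, ?_⟩
          rw [mem_closedBall_zero_iff]
          exact hm.trans (by exact_mod_cast (le_max_right _ _).trans hn)
        refine Tendsto.congr' ?_ tendsto_const_nhds
        filter_upwards [h1] with n hn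
        simp [hn]
      · have h2 : V z = 0 := hz hzU
        refine Tendsto.congr (fun n => ?_) tendsto_const_nhds
        by_cases h : z ∈ K n <;> simp [h, h2]
  obtain ⟨n, hn⟩ := (hlim.eventually (ge_mem_nhds hε)).exists
  exact ⟨K n, hKc n, inter_subset_left.trans (hFU n), hn⟩

/-- Second step: a nonnegative continuous function with compact support in `U`. -/
theorem exists_cont_approx (hU : IsOpen U) (hV : MemLp V 2 volume) (hV0 : ∀ᵐ z, 0 ≤ V z)
    (hVU : ∀ᵐ z, z ∉ U → V z = 0) {ε : ℝ≥0∞} (hε : 0 < ε) :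
    ∃ g : ℂ → ℝ, Continuous g ∧ HasCompactSupport g ∧ tsupport g ⊆ U ∧ (∀ z, 0 ≤ g z) ∧
      MemLp g 2 volume ∧ eLpNorm (fun z => V z - g z) 2 volume ≤ ε := by
  have hε2 : 0 < ε / 2 := ENNReal.half_pos hε.ne'
  obtain ⟨K, hK, hKU, hKε⟩ := exists_compact_approx hU hV hVU hε2
  have hVK : MemLp (K.indicator V) 2 (volume : Measure ℂ) := hV.indicator hK.measurableSet
  obtain ⟨g1, hg1s, hg1ε, hg1c, hg1m⟩ :=
    hVK.exists_hasCompactSupport_eLpNorm_sub_le (by simp) hε2.ne'
  obtain ⟨δ, hδ, hδU⟩ := hK.exists_cthickening_subset_open hU hKU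
  rcases K.eq_empty_or_nonempty with hKe | hKne
  · refine ⟨fun _ => 0, continuous_const, HasCompactSupport.zero, ?_, fun _ => le_rfl,
      MemLp.zero', ?_⟩
    · have : tsupport (fun _ : ℂ => (0 : ℝ)) = ∅ := by
        rw [tsupport_eq_empty_iff]; rfl
      rw [this]; exact empty_subset _
    · refine le_trans (le_trans (le_of_eq ?_) hKε) ENNReal.half_le_self
      congr 1
      funext z
      simp [hKe]
  set χ : ℂ → ℝ := fun z => max 0 (1 - infDist z K / δ) with hχ
  have hχc : Continuous χ := by
    have := continuous_infDist_pt K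
    fun_prop
  have hχ0 : ∀ z, 0 ≤ χ z := fun z => le_max_left _ _
  have hχ1 : ∀ z, χ z ≤ 1 := fun z => by
    refine max_le zero_le_one ?_
    have : 0 ≤ infDist z K / δ := div_nonneg infDist_nonneg hδ.le
    linarith
  have hχK : ∀ z ∈ K, χ z = 1 := fun z hz => by
    rw [hχ]
    simp only
    rw [infDist_zero_of_mem hz]
    simp
  have hχs : ∀ z, z ∉ cthickening δ K → χ z = 0 := fun z hz => by
    rw [hχ]
    simp only
    refine max_eq_left ?_
    have h1 : δ < infDist z K := by
      by_contra hcon
      push Not at hcon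
      apply hz
      rw [cthickening, mem_ofPred_eq]
      rw [infDist] at hcon
      exact (ENNReal.le_ofReal_iff_toReal_le (infEDist_ne_top hKne) hδ.le).2 hcon
    have : 1 < infDist z K / δ := by rwa [one_lt_div hδ]
    linarith
  have hCt : IsCompact (cthickening δ K) := hK.cthickening
  have hsub : tsupport χ ⊆ cthickening δ K := by
    refine closure_minimal ?_ isClosed_cthickening
    intro z hz
    by_contra hcon
    exact hz (hχs z hcon)
  refine ⟨fun z => χ z * max (g1 z) 0, hχc.mul (hg1c.max continuous_const), ?_, ?_, ?_, ?_, ?_⟩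
  · have hχcs : HasCompactSupport χ := hCt.of_isClosed_subset (isClosed_tsupport _) hsub
    exact hχcs.mul_right
  · exact (tsupport_mul_subset_left).trans (hsub.trans hδU)
  · intro z
    exact mul_nonneg (hχ0 z) (le_max_right _ _)
  · refine hg1m.of_le (hχc.mul (hg1c.max continuous_const)).aestronglyMeasurable ?_
    refine Eventually.of_forall fun z => ?_
    rw [norm_mul, Real.norm_eq_abs, Real.norm_eq_abs, Real.norm_eq_abs, abs_of_nonneg (hχ0 z)]
    refine (mul_le_of_le_one_left (abs_nonneg _) (hχ1 z)).trans ?_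
    rcases le_total 0 (g1 z) with h | h
    · rw [max_eq_left h]
    · rw [max_eq_right h]; simp
  · have h1 : eLpNorm (fun z => V z - χ z * max (g1 z) 0) 2 volume
        ≤ eLpNorm (fun z => V z - K.indicator V z) 2 volume
          + eLpNorm (fun z => K.indicator V z - χ z * max (g1 z) 0) 2 volume := by
      have e : (fun z => V z - χ z * max (g1 z) 0)
          = (fun z => V z - K.indicator V z) + (fun z => K.indicator V z - χ z * max (g1 z) 0) := by
        funext z; simp
      rw [e]
      exact eLpNorm_add_le (hV.1.sub hVK.1)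
        (hVK.1.sub (hχc.mul (hg1c.max continuous_const)).aestronglyMeasurable) (by norm_num)
    have h2 : eLpNorm (fun z => K.indicator V z - χ z * max (g1 z) 0) 2 volume
        ≤ eLpNorm (K.indicator V - g1) 2 volume := by
      refine eLpNorm_mono_ae ?_
      filter_upwards [hV0] with z hz
      by_cases hzK : z ∈ K
      · rw [Pi.sub_apply, indicator_of_mem hzK, hχK z hzK, one_mul, Real.norm_eq_abs,
          Real.norm_eq_abs]
        rcases le_total 0 (g1 z) with h | h
        · rw [max_eq_left h]
        · rw [max_eq_right h, abs_of_nonneg (by linarith), abs_of_nonneg (by linarith)]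
          linarith
      · rw [Pi.sub_apply, indicator_of_notMem hzK, zero_sub, zero_sub, norm_neg, norm_neg,
          norm_mul, Real.norm_eq_abs, Real.norm_eq_abs, Real.norm_eq_abs, abs_of_nonneg (hχ0 z)]
        refine (mul_le_of_le_one_left (abs_nonneg _) (hχ1 z)).trans ?_
        rcases le_total 0 (g1 z) with h | h
        · rw [max_eq_left h]
        · rw [max_eq_right h]; simp
    refine h1.trans ?_
    rw [← ENNReal.add_halves ε]
    exact add_le_add hKε (h2.trans hg1ε)

theorem measurable_cellOf (h : ℝ) : Measurable (cellOf h) := by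
  refine Measurable.prodMk ?_ ?_
  · exact ((Complex.measurable_re).div_const h).floor
  · exact ((Complex.measurable_im).div_const h).floor

theorem measurable_step (h : ℝ) (κ : ℤ × ℤ → ℝ) : Measurable (fun z => κ (cellOf h z)) :=
  (Measurable.of_discrete (f := κ)).comp (measurable_cellOf h)

/-- lower left corner of a grid square -/
def corner (h : ℝ) (a : ℤ × ℤ) : ℂ := ⟨a.1 * h, a.2 * h⟩

theorem dist_corner_cellOf {h : ℝ} (hh : 0 < h) (z : ℂ) : dist z (corner h (cellOf h z)) ≤ 2 * h := by
  rw [dist_eq_norm]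
  refine (Complex.norm_le_abs_re_add_abs_im _).trans ?_
  have h1 : ∀ x : ℝ, |x - (⌊x / h⌋ : ℝ) * h| ≤ h := by
    intro x
    have e1 := Int.floor_le (x / h)
    have e2 := Int.lt_floor_add_one (x / h)
    rw [le_div_iff₀ hh] at e1
    rw [div_lt_iff₀ hh] at e2
    rw [abs_le]
    constructor <;> nlinarith
  have e1 := h1 z.re
  have e2 := h1 z.im
  simp only [Complex.sub_re, Complex.sub_im, corner, cellOf]
  linarith

theorem dist_corner_osq {h : ℝ} (hh : 0 < h) {a : ℤ × ℤ} {z : ℂ} (hz : z ∈ osq h a) :
    dist z (corner h a) ≤ 2 * h := by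
  obtain ⟨h1, h2, h3, h4⟩ := hz
  rw [dist_eq_norm]
  refine (Complex.norm_le_abs_re_add_abs_im _).trans ?_
  simp only [Complex.sub_re, Complex.sub_im, corner]
  rw [abs_of_nonneg (by linarith), abs_of_nonneg (by linarith)]
  linarith

/-- Third step: step functions. -/
theorem exists_step (hU : IsOpen U) (hV : MemLp V 2 volume) (hV0 : ∀ᵐ z, 0 ≤ V z)
    (hVU : ∀ᵐ z, z ∉ U → V z = 0) {ε : ℝ} (hε : 0 < ε) :
    ∃ (h : ℝ) (κ : ℤ × ℤ →₀ ℝ), 0 < h ∧ (∀ a, 0 ≤ κ a) ∧ (∀ a, κ a ≠ 0 → osq h a ⊆ U) ∧
      MemLp (fun z => κ (cellOf h z)) 2 volume ∧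
      Real.sqrt (∫ z, (V z - κ (cellOf h z)) ^ 2) ≤ ε := by
  obtain ⟨g, hgc, hgs, hgU, hg0, hgm, hgε⟩ :=
    exists_cont_approx hU hV hV0 hVU (ε := ENNReal.ofReal (ε / 2)) (by simpa using hε)
  set K := tsupport g with hK
  have hKc : IsCompact K := hgs
  obtain ⟨δ, hδ, hδU⟩ := hKc.exists_cthickening_subset_open hU hgU
  have hCt : IsCompact (cthickening δ K) := hKc.cthickening
  have hCtfin : volume (cthickening δ K) < ⊤ := hCt.measure_lt_top
  set M := (volume (cthickening δ K)).toReal with hM
  have hM0 : 0 ≤ M := ENNReal.toReal_nonneg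
  -- uniform continuity
  have huc : UniformContinuous g := hgs.uniformContinuous_of_continuous hgc
  obtain ⟨τ, hτ, hτg⟩ := Metric.uniformContinuous_iff.1 huc (ε / (2 * (M + 1)))
    (by positivity)
  set h := min (δ / 2) (τ / 4) with _hh
  have hh0 : 0 < h := by rw [_hh]; positivity
  have h2δ : 2 * h ≤ δ := by
    have := min_le_left (δ / 2) (τ / 4)
    linarith
  have h2τ : 2 * h < τ := by
    have := min_le_right (δ / 2) (τ / 4)
    linarith
  -- the coefficients
  have hfin : {a : ℤ × ℤ | corner h a ∈ K}.Finite := by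
    obtain ⟨R, hR⟩ := hKc.isBounded.exists_norm_le
    obtain ⟨N, hN⟩ := exists_nat_ge (R / h)
    refine (Set.finite_Icc (-(N : ℤ), -(N : ℤ)) ((N : ℤ), (N : ℤ))).subset ?_
    intro a ha
    have h1 := hR _ ha
    have h2 : ∀ m : ℤ, |(m : ℝ) * h| ≤ R → |m| ≤ N := by
      intro m hm
      rw [abs_mul, abs_of_pos hh0, ← le_div_iff₀ hh0] at hm
      have := hm.trans hN
      exact_mod_cast this
    have h3 := h2 a.1 ((Complex.abs_re_le_norm (corner h a)).trans h1)
    have h4 := h2 a.2 ((Complex.abs_im_le_norm (corner h a)).trans h1)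
    rw [abs_le] at h3 h4
    exact ⟨⟨h3.1, h4.1⟩, ⟨h3.2, h4.2⟩⟩
  have hfs : ∀ a : ℤ × ℤ, g (corner h a) ≠ 0 → a ∈ hfin.toFinset := by
    intro a ha
    rw [Set.Finite.mem_toFinset]
    exact subset_tsupport g ha
  set κ : ℤ × ℤ →₀ ℝ := Finsupp.onFinset hfin.toFinset (fun a => g (corner h a)) hfs with hκ
  have hκa : ∀ a, κ a = g (corner h a) := fun a => rfl
  have hκm : Measurable (fun z => κ (cellOf h z)) := measurable_step h κ
  have hest : ∀ z, |g z - κ (cellOf h z)|
      ≤ (cthickening δ K).indicator (fun _ => ε / (2 * (M + 1))) z := by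
    intro z
    have hd := dist_corner_cellOf hh0 z
    by_cases hz : z ∈ cthickening δ K
    · rw [indicator_of_mem hz, hκa]
      have := hτg (lt_of_le_of_lt hd h2τ)
      rw [Real.dist_eq] at this
      exact this.le
    · rw [indicator_of_notMem hz, hκa]
      have h1 : g z = 0 := by
        by_contra hcon
        exact hz (self_subset_cthickening K (subset_tsupport g hcon))
      have h2 : g (corner h (cellOf h z)) = 0 := by
        by_contra hcon
        refine hz (mem_cthickening_of_dist_le z _ δ K (subset_tsupport g hcon) (hd.trans h2δ))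
      rw [h1, h2]; simp
  have hind : MemLp ((cthickening δ K).indicator (fun _ => ε / (2 * (M + 1)))) 2
      (volume : Measure ℂ) :=
    memLp_indicator_const 2 hCt.measurableSet _ (Or.inr hCtfin.ne)
  have hgκ : MemLp (fun z => g z - κ (cellOf h z)) 2 (volume : Measure ℂ) := by
    refine hind.of_le (hgm.1.sub hκm.aestronglyMeasurable) (Eventually.of_forall fun z => ?_)
    rw [Real.norm_eq_abs]
    exact (hest z).trans (le_abs_self _)
  have hκmem : MemLp (fun z => κ (cellOf h z)) 2 (volume : Measure ℂ) := by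
    have : (fun z => κ (cellOf h z)) = fun z => g z - (g z - κ (cellOf h z)) := by
      funext z; ring
    rw [this]
    exact hgm.sub hgκ
  have hVκ : MemLp (fun z => V z - κ (cellOf h z)) 2 (volume : Measure ℂ) := hV.sub hκmem
  refine ⟨h, κ, hh0, fun a => hg0 _, ?_, hκmem, ?_⟩
  · intro a ha z hz
    apply hδU
    exact mem_cthickening_of_dist_le z _ δ K (subset_tsupport g ha)
      ((dist_corner_osq hh0 hz).trans h2δ)
  · have e1 : eLpNorm (fun z => g z - κ (cellOf h z)) 2 volume ≤ ENNReal.ofReal (ε / 2) := by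
      have h1 : eLpNorm (fun z => g z - κ (cellOf h z)) 2 volume
          ≤ eLpNorm ((cthickening δ K).indicator (fun _ => ε / (2 * (M + 1)))) 2 volume := by
        refine eLpNorm_mono fun z => ?_
        rw [Real.norm_eq_abs]
        exact (hest z).trans (le_abs_self _)
      refine h1.trans ?_
      rw [← ENNReal.ofReal_toReal hind.2.ne]
      refine ENNReal.ofReal_le_ofReal ?_
      refine le_of_sq_le_sq ?_ (by positivity)
      rw [eLpNorm_two_sq hind]
      have h2 : ∀ z, ‖(cthickening δ K).indicator (fun _ => ε / (2 * (M + 1))) z‖ ^ 2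
          = (cthickening δ K).indicator (fun _ => (ε / (2 * (M + 1))) ^ 2) z := by
        intro z
        by_cases hz : z ∈ cthickening δ K
        · rw [indicator_of_mem hz, indicator_of_mem hz, Real.norm_eq_abs, sq_abs]
        · rw [indicator_of_notMem hz, indicator_of_notMem hz]; simp
      simp_rw [h2]
      rw [integral_indicator hCt.measurableSet, setIntegral_const, smul_eq_mul]
      show M * (ε / (2 * (M + 1))) ^ 2 ≤ (ε / 2) ^ 2
      have h3 : (ε / (2 * (M + 1))) ^ 2 = (ε / 2) ^ 2 * (1 / (M + 1) ^ 2) := by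
        field_simp
      rw [h3]
      have h4 : M * (1 / (M + 1) ^ 2) ≤ 1 := by
        rw [mul_one_div, div_le_one (by positivity)]
        nlinarith
      nlinarith [sq_nonneg (ε / 2)]
    have e2 : eLpNorm (fun z => V z - κ (cellOf h z)) 2 volume ≤ ENNReal.ofReal ε := by
      have e : (fun z => V z - κ (cellOf h z))
          = (fun z => V z - g z) + (fun z => g z - κ (cellOf h z)) := by
        funext z; simp
      rw [e]
      refine (eLpNorm_add_le (hV.1.sub hgm.1) hgκ.1 (by norm_num)).trans ?_
      refine (add_le_add hgε e1).trans ?_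
      rw [← ENNReal.ofReal_add (by positivity) (by positivity)]
      exact ENNReal.ofReal_le_ofReal (by linarith)
    have e3 : (eLpNorm (fun z => V z - κ (cellOf h z)) 2 volume).toReal ≤ ε :=
      ENNReal.toReal_le_of_le_ofReal hε.le e2
    have e4 := eLpNorm_two_sq hVκ
    simp only [Real.norm_eq_abs, sq_abs] at e4
    rw [← e4, Real.sqrt_sq ENNReal.toReal_nonneg]
    exact e3

end Pool.Agent.H41.Ev
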