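import Pool.Agent.H47.Ev.Eig
import Pool.Agent.H47.Ev.Step
import Pool.Agent.H95.Perf.Main

/-!
Theorem R: relaxed competitors.
-/

open MeasureTheory Set Metric Filter Topology ContDiff
open scoped ENNReal RealInnerProductSpace

namespace Pool.Agent.H41.Ev

open Pool.Agent.H47.FQ

variable {Ω Ω' U : Set ℂ} {u v w w' : ℂ → ℝ} {G H W W' : ℂ → ℂ} {φ : ℂ → ℝ}

/-- Convergence in `L²` gives convergence of the square norms. -/
theorem tendsto_int_norm_sq {E : Type*} [NormedAddCommGroup E] {F : ℂ → E} {Fn : ℕ → ℂ → E}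
    (hF : MemLp F 2 volume) (hFn : ∀ n, MemLp (Fn n) 2 volume)
    (h : Tendsto (fun n => eLpNorm (fun z => Fn n z - F z) 2 volume) atTop (𝓝 0)) :
    Tendsto (fun n => ∫ z, ‖Fn n z‖ ^ 2) atTop (𝓝 (∫ z, ‖F z‖ ^ 2)) := by
  have h1 : Tendsto (fun n => (hFn n).toLp (Fn n)) atTop (𝓝 (hF.toLp F)) :=
    (Lp.tendsto_Lp_iff_tendsto_eLpNorm'' Fn hFn F hF).2 h
  have h2 := (h1.norm).pow 2
  have h3 : ∀ {f : ℂ → E} (hf : MemLp f 2 (volume : Measure ℂ)),
      ‖hf.toLp f‖ ^ 2 = ∫ z, ‖f z‖ ^ 2 := by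
    intro f hf
    rw [Lp.norm_toLp, eLpNorm_two_sq hf]
  simp only [h3] at h2
  exact h2

/-- test functions nearly optimal for the penalised functional -/
theorem exists_test_near (hU : IsOpen U) (hfin : volume U < ⊤) (hu : H10 U u G) {V : ℂ → ℝ}
    (hVm : AEStronglyMeasurable V volume) {n : ℝ} (hV0 : ∀ᵐ z, 0 ≤ V z) (hVn : ∀ᵐ z, V z ≤ n)
    {η : ℝ} (hη : 0 < η) :
    ∃ φ, IsTest U φ ∧ 2 * (∫ z, u z) - (∫ z, ‖G z‖ ^ 2) - (∫ z, V z * u z ^ 2) - η
      ≤ 2 * (∫ z, φ z) - (∫ z, ‖gradient φ z‖ ^ 2) - (∫ z, V z * φ z ^ 2) := by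
  obtain ⟨φ, hφ, h1, h2⟩ := hu.approx
  have hone2 : MemLp (U.indicator (fun _ => (1 : ℝ))) 2 (volume : Measure ℂ) := memLp_ind hU hfin
  have hm : ∀ k, MemLp (fun z => φ k z - u z) 2 (volume : Measure ℂ) := fun k =>
    (hφ k).h10.memLp.sub hu.memLp
  have t1 : Tendsto (fun k => ∫ z, φ k z) atTop (𝓝 (∫ z, u z)) := by
    have h3 := (tendsto_eLpNorm_iff hm).1 h1
    simp only [Real.norm_eq_abs, sq_abs] at h3
    have h4 : Tendsto (fun k => Real.sqrt (∫ z, U.indicator (fun _ => (1 : ℝ)) z ^ 2)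
        * Real.sqrt (∫ z, (φ k z - u z) ^ 2)) atTop (𝓝 0) := by
      have := (h3.sqrt).const_mul (Real.sqrt (∫ z, U.indicator (fun _ => (1 : ℝ)) z ^ 2))
      simpa using this
    rw [tendsto_iff_norm_sub_tendsto_zero]
    refine squeeze_zero (fun k => norm_nonneg _) (fun k => ?_) h4
    have h5 : H10 U (fun z => φ k z - u z) (fun z => gradient (φ k) z - G z) :=
      (hφ k).h10.sub hu
    rw [← integral_sub ((hφ k).h10.integrable hU hfin) (hu.integrable hU hfin),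
      ← int_ind_mul hU h5, Real.norm_eq_abs]
    exact cs_mul hone2 (hm k)
  have t2 : Tendsto (fun k => ∫ z, ‖gradient (φ k) z‖ ^ 2) atTop (𝓝 (∫ z, ‖G z‖ ^ 2)) :=
    tendsto_int_norm_sq hu.memLp_grad (fun k => (hφ k).h10.memLp_grad) h2
  have t3 : Tendsto (fun k => ∫ z, V z * φ k z ^ 2) atTop (𝓝 (∫ z, V z * u z ^ 2)) := by
    have hsm : AEStronglyMeasurable (fun z => Real.sqrt (V z)) (volume : Measure ℂ) :=
      (Real.continuous_sqrt).comp_aestronglyMeasurable hVm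
    have hmul : ∀ {f : ℂ → ℝ}, MemLp f 2 (volume : Measure ℂ) →
        MemLp (fun z => Real.sqrt (V z) * f z) 2 (volume : Measure ℂ) := by
      intro f hf
      refine (hf.norm.const_mul (Real.sqrt n)).mono' (hsm.mul hf.1) ?_
      filter_upwards [hVn] with z hz
      rw [norm_mul, Real.norm_eq_abs, abs_of_nonneg (Real.sqrt_nonneg _)]
      exact mul_le_mul_of_nonneg_right (Real.sqrt_le_sqrt hz) (norm_nonneg _)
    have h3 : Tendsto (fun k => eLpNorm (fun z => Real.sqrt (V z) * φ k z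
        - Real.sqrt (V z) * u z) 2 volume) atTop (𝓝 0) := by
      have hlim : Tendsto (fun k => ENNReal.ofReal (Real.sqrt n) *
          eLpNorm (fun z => φ k z - u z) 2 (volume : Measure ℂ)) atTop (𝓝 0) := by
        have := ENNReal.Tendsto.const_mul (a := ENNReal.ofReal (Real.sqrt n)) h1
          (Or.inr ENNReal.ofReal_ne_top)
        simpa using this
      refine tendsto_of_tendsto_of_tendsto_of_le_of_le tendsto_const_nhds hlim
        (fun k => zero_le) (fun k => ?_)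
      refine eLpNorm_le_mul_eLpNorm_of_ae_le_mul ?_ 2
      filter_upwards [hVn] with z hz
      rw [← mul_sub, norm_mul, Real.norm_eq_abs, abs_of_nonneg (Real.sqrt_nonneg _)]
      exact mul_le_mul_of_nonneg_right (Real.sqrt_le_sqrt hz) (norm_nonneg _)
    have h4 := tendsto_int_norm_sq (hmul hu.memLp) (fun k => hmul (hφ k).h10.memLp) h3
    have h5 : ∀ f : ℂ → ℝ, ∫ z, ‖Real.sqrt (V z) * f z‖ ^ 2 = ∫ z, V z * f z ^ 2 := by
      intro f
      refine integral_congr_ae ?_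
      filter_upwards [hV0] with z hz
      rw [Real.norm_eq_abs, sq_abs, mul_pow, Real.sq_sqrt hz]
    simp only [h5] at h4
    exact h4
  have t := ((t1.const_mul 2).sub t2).sub t3
  have ev := t.eventually (lt_mem_nhds (show 2 * (∫ z, u z) - (∫ z, ‖G z‖ ^ 2)
    - (∫ z, V z * u z ^ 2) - η < 2 * (∫ z, u z) - (∫ z, ‖G z‖ ^ 2)
    - (∫ z, V z * u z ^ 2) by linarith))
  obtain ⟨k, hk⟩ := ev.exists
  exact ⟨φ k, hφ k, hk.le⟩

/-- Theorem R. -/
theorem relaxed (hΩ : IsOpen Ω) (hU : IsOpen U) (hΩU : Ω ⊆ U) (hfin : volume U < ⊤)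
    (hlam : RQ Ω 1) (hw : IsTorsion Ω w W) (hw' : H10 U w' W') (hge : ∀ᵐ z, w z ≤ w' z)
    (hhalf : ∀ᵐ z, w' z ≠ w z → w' z ≤ 1 / 2)
    (hS : ∀ Φ H, H10 U Φ H → (∀ᵐ z, 0 ≤ Φ z) → ∫ z, ⟪W' z, H z⟫ ≤ ∫ z, Φ z)
    {η : ℝ} (hη : 0 < η) :
    ∃ Ω' : Set ℂ, IsOpen Ω' ∧ Ω' ⊆ U ∧ RQ Ω' (1 - η) ∧ TLow Ω' ((∫ z, w' z) - η) := by
  have hΩfin : volume Ω < ⊤ := lt_of_le_of_lt (measure_mono hΩU) hfin
  have hw0 := hw.nonneg hΩ hΩfin
  obtain ⟨C, hC, hlady⟩ := lady_mul
  set K : ℝ := (volume U).toReal + ∫ z, ‖W' z‖ ^ 2 with hK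
  have hK0 : 0 ≤ K := by positivity
  set n : ℝ := max 1 (K * (32 * C / η) ^ 2) with hndef
  have hn1 : 1 ≤ n := le_max_left _ _
  have hn0 : 0 < n := by linarith
  have hnK : K ≤ n * (η / (32 * C)) ^ 2 := by
    have h1 : K * (32 * C / η) ^ 2 ≤ n := le_max_right _ _
    have h2 : K = K * (32 * C / η) ^ 2 * (η / (32 * C)) ^ 2 := by field_simp
    rw [h2]
    exact mul_le_mul_of_nonneg_right h1 (by positivity)
  obtain ⟨u, G, hu, heq⟩ := exists_penalised hU hfin hw'.memLp hn0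
  have huge := penalised_ge hU hfin hw' hS hu heq
  have hsmall := penalised_small hU hfin hw' hn1 hu heq huge
  have hu0 : ∀ᵐ z, 0 ≤ u z := by
    filter_upwards [hw0, hge, huge] with z h1 h2 h3
    linarith
  have hv2 : ∫ z, (u z - w' z) ^ 2 ≤ (η / (32 * C)) ^ 2 := by
    have h1 : n * ∫ z, (u z - w' z) ^ 2 ≤ n * (η / (32 * C)) ^ 2 := hsmall.trans hnK
    exact le_of_mul_le_mul_left h1 hn0
  have hvs : Real.sqrt (∫ z, (u z - w' z) ^ 2) ≤ η / (32 * C) := by
    rw [Real.sqrt_le_left (by positivity)]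
    exact hv2
  have hvH : H10 U (fun z => u z - w' z) (fun z => G z - W' z) := hu.sub hw'
  -- the potential
  set V : ℂ → ℝ := fun z => n * (u z - w' z) / u z with hV
  have hVm : AEStronglyMeasurable V (volume : Measure ℂ) :=
    (hvH.memLp.1.const_mul n).div₀ hu.memLp.1
  have hV0 : ∀ᵐ z, 0 ≤ V z := by
    filter_upwards [huge, hu0] with z h1 h2
    exact div_nonneg (mul_nonneg hn0.le (by linarith)) h2
  have hVn : ∀ᵐ z, V z ≤ n := by
    filter_upwards [hw0, hge, huge, hu0] with z h1 h2 h3 h4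
    show n * (u z - w' z) / u z ≤ n
    rcases eq_or_lt_of_le h4 with h5 | h5
    · rw [← h5]; simp [hn0.le]
    · rw [div_le_iff₀ h5]
      exact mul_le_mul_of_nonneg_left (by linarith) hn0.le
  have hVU : ∀ᵐ z, z ∉ U → V z = 0 := by
    filter_upwards [hu.ae_zero hU] with z hz hzU
    show n * (u z - w' z) / u z = 0
    rw [(hz hzU).1]; simp
  have hVmem : MemLp V 2 (volume : Measure ℂ) := by
    have hone2 : MemLp (U.indicator (fun _ => (1 : ℝ))) 2 (volume : Measure ℂ) :=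
      memLp_ind hU hfin
    refine (hone2.const_mul n).mono' hVm ?_
    filter_upwards [hV0, hVn, hVU] with z h1 h2 h3
    rw [Real.norm_eq_abs, abs_of_nonneg h1]
    by_cases h : z ∈ U
    · simpa [h] using h2
    · simp [h, h3 h]
  -- energy identity
  have hJ : 2 * (∫ z, u z) - (∫ z, ‖G z‖ ^ 2) - (∫ z, V z * u z ^ 2) = ∫ z, u z := by
    have h1 := heq u G hu
    have h2 : ∫ z, ⟪G z, G z⟫ = ∫ z, ‖G z‖ ^ 2 :=
      integral_congr_ae (Eventually.of_forall fun z => real_inner_self_eq_norm_sq _)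
    have h3 : n * (∫ z, max (u z - w' z) 0 * u z) = ∫ z, V z * u z ^ 2 := by
      rw [← integral_const_mul]
      refine integral_congr_ae ?_
      filter_upwards [huge, hu0] with z h4 h5
      show n * (max (u z - w' z) 0 * u z) = n * (u z - w' z) / u z * u z ^ 2
      rw [max_eq_left (by linarith)]
      rcases eq_or_lt_of_le h5 with h6 | h6
      · rw [← h6]; simp
      · field_simp
    rw [h2, h3] at h1
    linarith
  obtain ⟨φ₀, hφ₀, hφ₀J⟩ := exists_test_near hU hfin hu hVm hV0 hVn (η := η / 4) (by positivity)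
  rw [hJ] at hφ₀J
  have huw : ∫ z, w' z ≤ ∫ z, u z :=
    integral_mono_ae (hw'.integrable hU hfin) (hu.integrable hU hfin) huge
  -- the step function
  set A : ℝ := Real.sqrt (∫ z, φ₀ z ^ 2) with hA
  set B : ℝ := Real.sqrt (∫ z, ‖gradient φ₀ z‖ ^ 2) with hB
  have hA0 : 0 ≤ A := Real.sqrt_nonneg _
  have hB0 : 0 ≤ B := Real.sqrt_nonneg _
  set ε : ℝ := min (η / (8 * C)) (η / (4 * (C * A * B + 1))) with hεdef
  have hε : 0 < ε := by rw [hεdef]; positivity
  obtain ⟨h, κ, hh, hκ0, hκU, hκm, hκε⟩ := exists_step hU hVmem hV0 hVU hε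
  have hdm : MemLp (fun z => V z - κ (cellOf h z)) 2 (volume : Measure ℂ) := hVmem.sub hκm
  -- comparison of the two potentials
  have hcomp : ∀ φ : ℂ → ℝ, IsTest U φ →
      |(∫ z, V z * φ z ^ 2) - ∫ z, κ (cellOf h z) * φ z ^ 2| ≤
        C * ε * Real.sqrt (∫ z, φ z ^ 2) * Real.sqrt (∫ z, ‖gradient φ z‖ ^ 2) := by
    intro φ hφ
    have hφ2 : MemLp (fun z => φ z ^ 2) 2 (volume : Measure ℂ) := hφ.sq.h10.memLp
    have h1 := (hlady _ φ (gradient φ) hdm (hφ.h10.mono (subset_univ _))).2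
    rw [← integral_sub (int_mul hVmem hφ2) (int_mul hκm hφ2)]
    refine abs_integral_le_integral_abs.trans ?_
    have h2 : ∫ z, |V z * φ z ^ 2 - κ (cellOf h z) * φ z ^ 2|
        = ∫ z, |V z - κ (cellOf h z)| * φ z ^ 2 := by
      refine integral_congr_ae (Eventually.of_forall fun z => ?_)
      show |V z * φ z ^ 2 - κ (cellOf h z) * φ z ^ 2| = |V z - κ (cellOf h z)| * φ z ^ 2
      rw [← sub_mul, abs_mul, abs_of_nonneg (sq_nonneg (φ z))]
    rw [h2]
    refine h1.trans ?_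
    refine mul_le_mul_of_nonneg_right ?_ (Real.sqrt_nonneg _)
    refine mul_le_mul_of_nonneg_right ?_ (Real.sqrt_nonneg _)
    exact mul_le_mul_of_nonneg_left hκε hC.le
  have hΛ : ∀ φ, IsTest U φ →
      (1 - η / 2) * ∫ z, φ z ^ 2 ≤ (∫ z, ‖gradient φ z‖ ^ 2) + ∫ z, κ (cellOf h z) * φ z ^ 2 := by
    intro φ hφ
    set a : ℝ := Real.sqrt (∫ z, φ z ^ 2) with ha
    set b : ℝ := Real.sqrt (∫ z, ‖gradient φ z‖ ^ 2) with hb
    have ha0 : 0 ≤ a := Real.sqrt_nonneg _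
    have hb0 : 0 ≤ b := Real.sqrt_nonneg _
    have ha2 : ∫ z, φ z ^ 2 = a ^ 2 := (Real.sq_sqrt (by positivity)).symm
    have hb2 : ∫ z, ‖gradient φ z‖ ^ 2 = b ^ 2 := (Real.sq_sqrt (by positivity)).symm
    have hκφ : 0 ≤ ∫ z, κ (cellOf h z) * φ z ^ 2 :=
      integral_nonneg fun z => mul_nonneg (hκ0 _) (sq_nonneg _)
    rcases le_total b a with hba | hab
    · have e1 := eig_estimate hΩ hΩU hΩfin hlam hw hw0 hw' hge hhalf hn0.le hu heq huge hφ
      have e2 := hcomp φ hφ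
      have e3 := (hlady _ φ (gradient φ) hvH.memLp (hφ.h10.mono (subset_univ _))).2
      have e4 : ∫ z, (u z - w' z) * φ z ^ 2 ≤ ∫ z, |u z - w' z| * φ z ^ 2 := by
        refine integral_mono (int_mul hvH.memLp hφ.sq.h10.memLp) ?_ fun z => ?_
        · have := (int_mul hvH.memLp hφ.sq.h10.memLp).norm
          refine this.congr (Eventually.of_forall fun z => ?_)
          show ‖(u z - w' z) * φ z ^ 2‖ = |u z - w' z| * φ z ^ 2
          rw [norm_mul, Real.norm_eq_abs, Real.norm_eq_abs, abs_of_nonneg (sq_nonneg (φ z))]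
        · exact mul_le_mul_of_nonneg_right (le_abs_self _) (sq_nonneg _)
      have e5 : C * Real.sqrt (∫ z, (u z - w' z) ^ 2) * a * b ≤ η / 32 * (a * b) := by
        have : C * Real.sqrt (∫ z, (u z - w' z) ^ 2) ≤ η / 32 := by
          calc C * Real.sqrt (∫ z, (u z - w' z) ^ 2) ≤ C * (η / (32 * C)) :=
                mul_le_mul_of_nonneg_left hvs hC.le
            _ = η / 32 := by field_simp
        calc C * Real.sqrt (∫ z, (u z - w' z) ^ 2) * a * b
            = (C * Real.sqrt (∫ z, (u z - w' z) ^ 2)) * (a * b) := by ring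
          _ ≤ η / 32 * (a * b) := mul_le_mul_of_nonneg_right this (by positivity)
      have e6 : C * ε * a * b ≤ η / 8 * (a * b) := by
        have : C * ε ≤ η / 8 := by
          calc C * ε ≤ C * (η / (8 * C)) :=
                mul_le_mul_of_nonneg_left (min_le_left _ _) hC.le
            _ = η / 8 := by field_simp
        calc C * ε * a * b = (C * ε) * (a * b) := by ring
          _ ≤ η / 8 * (a * b) := mul_le_mul_of_nonneg_right this (by positivity)
      have e7 : a * b ≤ a ^ 2 := by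
        rw [sq]
        exact mul_le_mul_of_nonneg_left hba ha0
      have e7' : η * (a * b) ≤ η * a ^ 2 := mul_le_mul_of_nonneg_left e7 hη.le
      have e8 := (abs_le.1 e2).2
      rw [ha2, hb2] at e1
      rw [ha2, hb2]
      have e9 : (∫ z, (u z - w' z) * φ z ^ 2) ≤ η / 32 * (a * b) := e4.trans (e3.trans e5)
      have e10 : (∫ z, V z * φ z ^ 2) ≤ (∫ z, κ (cellOf h z) * φ z ^ 2) + η / 8 * (a * b) := by
        linarith
      have e11 : (1 - η / 2) * a ^ 2 = a ^ 2 - (η * a ^ 2) / 2 := by ring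
      have e12 : 0 ≤ η * a ^ 2 := by positivity
      have e1' : a ^ 2 - 4 * (∫ z, (u z - w' z) * φ z ^ 2) ≤ b ^ 2 + ∫ z, V z * φ z ^ 2 := e1
      rw [e11]
      linarith
    · rw [ha2, hb2]
      have e1 : a ^ 2 ≤ b ^ 2 := pow_le_pow_left₀ ha0 hab 2
      have e12 : 0 ≤ η * a ^ 2 := by positivity
      have e11 : (1 - η / 2) * a ^ 2 = a ^ 2 - (η * a ^ 2) / 2 := by ring
      rw [e11]
      linarith
  obtain ⟨Ω', hΩ', hsub, hRQ, hT⟩ := perforation hU hfin hh κ hκ0 hκU hΛ hφ₀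
    (η := η / 2) (by positivity)
  refine ⟨Ω', hΩ', hsub, ?_, ?_⟩
  · have : 1 - η / 2 - η / 2 = 1 - η := by ring
    rwa [this] at hRQ
  · obtain ⟨ψ, hψ, hψt⟩ := hT
    refine ⟨ψ, hψ, le_trans ?_ hψt⟩
    have e1 := (abs_le.1 (hcomp φ₀ hφ₀)).1
    have e2 : C * ε * A * B ≤ η / 4 := by
      have h1 : ε ≤ η / (4 * (C * A * B + 1)) := min_le_right _ _
      calc C * ε * A * B = (C * A * B) * ε := by ring
        _ ≤ (C * A * B) * (η / (4 * (C * A * B + 1))) :=
            mul_le_mul_of_nonneg_left h1 (by positivity)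
        _ ≤ η / 4 := by
            rw [mul_div_assoc', div_le_div_iff₀ (by positivity) (by norm_num)]
            nlinarith
    linarith

end Pool.Agent.H41.Ev
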