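import Pool.Agent.H41.Ev.LatDefs

/-!
The test function of the lattice argument (piece (C) of M8, MP_898b17_an).
-/

open MeasureTheory Set Metric Filter Topology ContDiff
open scoped ENNReal NNReal RealInnerProductSpace

namespace Pool.Agent.H47.Ev

open Pool.Agent.H41.Ev

/-- Minimum of finitely many Lipschitz functions with values in `[0,1]`. -/
theorem exists_min_family (B : Finset (ℤ × ℤ)) (ζ : ℤ × ℤ → ℂ → ℝ) (Kb : ℤ × ℤ → ℝ≥0)
    (hL : ∀ b, LipschitzWith (Kb b) (ζ b)) (h0 : ∀ b z, 0 ≤ ζ b z) :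
    ∃ (m : ℂ → ℝ) (K : ℝ≥0), LipschitzWith K m ∧ (∀ z, 0 ≤ m z) ∧ (∀ z, m z ≤ 1) ∧
      (∀ b ∈ B, ∀ z, m z ≤ ζ b z) ∧ (∀ z, m z = 1 ∨ ∃ b ∈ B, m z = ζ b z) := by
  classical
  induction B using Finset.induction_on with
  | empty =>
    refine ⟨fun _ => 1, 0, LipschitzWith.const 1, fun _ => zero_le_one, fun _ => le_rfl, ?_,
      fun _ => Or.inl rfl⟩
    intro b hb
    simp at hb
  | insert b B _ ih =>
    obtain ⟨m, K, hm, hm0, hm1, hmle, hmeq⟩ := ih
    refine ⟨fun z => min (m z) (ζ b z), max K (Kb b), hm.min (hL b),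
      fun z => le_min (hm0 z) (h0 b z), fun z => (min_le_left _ _).trans (hm1 z), ?_, ?_⟩
    · intro c hc z
      rcases Finset.mem_insert.1 hc with rfl | hc
      · exact min_le_right _ _
      · exact (min_le_left _ _).trans (hmle c hc z)
    · intro z
      rcases le_total (m z) (ζ b z) with h | h
      · rcases hmeq z with h1 | ⟨c, hc, h1⟩
        · left
          show min (m z) (ζ b z) = 1
          rw [min_eq_left h, h1]
        · right
          refine ⟨c, Finset.mem_insert_of_mem hc, ?_⟩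
          show min (m z) (ζ b z) = ζ c z
          rw [min_eq_left h, h1]
      · right
        refine ⟨b, Finset.mem_insert_self _ _, ?_⟩
        show min (m z) (ζ b z) = ζ b z
        rw [min_eq_right h]

/-- A point is at distance at most `ρ` from the centre of its grid square. -/
theorem norm_sub_ctr_le {ρ : ℝ} (hρ : 0 < ρ) (z : ℂ) : ‖z - ctr ρ (cellOf ρ z)‖ ≤ ρ := by
  refine (Complex.norm_le_abs_re_add_abs_im _).trans ?_
  have h1 : ∀ x : ℝ, |x - ((⌊x / ρ⌋ : ℝ) + 1 / 2) * ρ| ≤ ρ / 2 := by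
    intro x
    have e1 := Int.floor_le (x / ρ)
    have e2 := Int.lt_floor_add_one (x / ρ)
    rw [le_div_iff₀ hρ] at e1
    rw [div_lt_iff₀ hρ] at e2
    rw [abs_le]
    constructor <;> nlinarith
  have e1 := h1 z.re
  have e2 := h1 z.im
  simp only [Complex.sub_re, Complex.sub_im, ctr, cellOf]
  linarith

/-- Close points lie in neighbouring grid squares. -/
theorem cellOf_near {ρ : ℝ} (hρ : 0 < ρ) {p q : ℂ} (h : ‖p - q‖ < ρ) :
    |(cellOf ρ p).1 - (cellOf ρ q).1| ≤ 1 ∧ |(cellOf ρ p).2 - (cellOf ρ q).2| ≤ 1 := by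
  have h1 : ∀ x y : ℝ, |x - y| < ρ → |⌊x / ρ⌋ - ⌊y / ρ⌋| ≤ 1 := by
    intro x y hxy
    rw [abs_lt] at hxy
    have e1 := Int.floor_le (x / ρ)
    have e2 := Int.lt_floor_add_one (x / ρ)
    have e3 := Int.floor_le (y / ρ)
    have e4 := Int.lt_floor_add_one (y / ρ)
    have h2 : x / ρ - y / ρ < 1 := by
      rw [← sub_div, div_lt_one hρ]; exact hxy.2
    have h3 : -1 < x / ρ - y / ρ := by
      rw [← sub_div, lt_div_iff₀ hρ]; linarith [hxy.1]
    have h4 : ((⌊x / ρ⌋ - ⌊y / ρ⌋ : ℤ) : ℝ) < ((2 : ℤ) : ℝ) := by push_cast; linarith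
    have h5 : ((-2 : ℤ) : ℝ) < ((⌊x / ρ⌋ - ⌊y / ρ⌋ : ℤ) : ℝ) := by push_cast; linarith
    have h4' := Int.cast_lt.1 h4
    have h5' := Int.cast_lt.1 h5
    rw [abs_le]
    constructor <;> omega
  refine ⟨h1 _ _ ?_, h1 _ _ ?_⟩
  · have := Complex.abs_re_le_norm (p - q)
    rw [Complex.sub_re] at this
    exact lt_of_le_of_lt this h
  · have := Complex.abs_im_le_norm (p - q)
    rw [Complex.sub_im] at this
    exact lt_of_le_of_lt this h

end Pool.Agent.H47.Ev

namespace Pool.Agent.H41.Ev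

open Pool.Agent.H47.Ev

/-- (C) The test function, given the logarithmic cut-off (A). -/
theorem glue_of_cutoff (hlog : ∀ (N : ℕ), 0 < N → ∀ (r : ℝ), 0 < r → ∀ (b : ℂ),
      ∃ (ζ g : ℂ → ℝ) (K : ℝ≥0), LipschitzWith K ζ ∧ (∀ z, 0 ≤ ζ z) ∧ (∀ z, ζ z ≤ 1) ∧
      (∀ z, ‖z - b‖ ≤ r → ζ z = 0) ∧ (∀ z, r * 4 ^ N ≤ ‖z - b‖ → ζ z = 1) ∧
      Integrable g volume ∧ (∀ z, 0 ≤ g z) ∧ (∀ z, ‖gradient ζ z‖ ^ 2 ≤ g z) ∧
      ∫ z, g z ≤ 4 * Real.pi / N) {ρ : ℝ} (hρ : 0 < ρ) {N : ℕ} (hN : 0 < N) (H B : Finset (ℤ × ℤ))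
    (hB : ∀ a ∈ H, ∀ b, b ∉ H → |a.1 - b.1| ≤ 1 → |a.2 - b.2| ≤ 1 → b ∈ B) :
    ∃ (φ : ℂ → ℝ) (K : ℝ≥0), LipschitzWith K φ ∧ HasCompactSupport φ ∧ (∀ z, 0 ≤ φ z) ∧
      (∀ z, φ z ≤ 1) ∧ (∀ z, cellOf ρ z ∉ H → φ z = 0) ∧
      (∀ z, cellOf ρ z ∈ H → (∀ b ∈ B, 5 * ρ * 4 ^ N ≤ ‖z - ctr ρ b‖) → φ z = 1) ∧
      ∫ z, ‖gradient φ z‖ ^ 2 ≤ B.card * (4 * Real.pi / N) := by
  classical
  have hcut := fun b : ℤ × ℤ => hlog N hN (5 * ρ) (by positivity) (ctr ρ b)
  choose ζ g Kb hL h0 h1 hin hout hgi hg0 hgrad hgint using hcut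
  obtain ⟨m, K, hm, hm0, hm1, hmle, hmeq⟩ := exists_min_family B ζ Kb hL h0
  set R : Set ℂ := {z | cellOf ρ z ∈ H} with hR
  set φ : ℂ → ℝ := fun z => if cellOf ρ z ∈ H then m z else 0 with hφ
  have hφin : ∀ z, cellOf ρ z ∈ H → φ z = m z := fun z hz => by
    rw [hφ]; simp only [hz, if_true]
  have hφout : ∀ z, cellOf ρ z ∉ H → φ z = 0 := fun z hz => by
    rw [hφ]; simp only [hz, if_false]
  have hφ0 : ∀ z, 0 ≤ φ z := fun z => by
    by_cases hz : cellOf ρ z ∈ H
    · rw [hφin z hz]; exact hm0 z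
    · rw [hφout z hz]
  have hφm : ∀ z, φ z ≤ m z := fun z => by
    by_cases hz : cellOf ρ z ∈ H
    · rw [hφin z hz]
    · rw [hφout z hz]; exact hm0 z
  have hφ1 : ∀ z, φ z ≤ 1 := fun z => (hφm z).trans (hm1 z)
  -- `m` vanishes on the frontier of `R`
  have hfront : ∀ z ∈ frontier R, m z = 0 := by
    intro z hz
    rw [frontier_eq_closure_inter_closure] at hz
    obtain ⟨p, hp, hpz⟩ := Metric.mem_closure_iff.1 hz.1 (ρ / 2) (by positivity)
    obtain ⟨q, hq, hqz⟩ := Metric.mem_closure_iff.1 hz.2 (ρ / 2) (by positivity)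
    have hpq : ‖p - q‖ < ρ := by
      rw [← dist_eq_norm]
      calc dist p q ≤ dist p z + dist z q := dist_triangle _ _ _
        _ < ρ / 2 + ρ / 2 := by
          rw [dist_comm p z]; exact add_lt_add hpz hqz
        _ = ρ := by ring
    have hnear := cellOf_near hρ hpq
    have hb : cellOf ρ q ∈ B := hB (cellOf ρ p) hp (cellOf ρ q) hq hnear.1 hnear.2
    have hdist : ‖z - ctr ρ (cellOf ρ q)‖ ≤ 5 * ρ := by
      calc ‖z - ctr ρ (cellOf ρ q)‖ = ‖(z - q) + (q - ctr ρ (cellOf ρ q))‖ := by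
            congr 1; ring
        _ ≤ ‖z - q‖ + ‖q - ctr ρ (cellOf ρ q)‖ := norm_add_le _ _
        _ ≤ ρ / 2 + ρ := by
          refine add_le_add ?_ (norm_sub_ctr_le hρ q)
          rw [← dist_eq_norm]; exact hqz.le
        _ ≤ 5 * ρ := by linarith
    refine le_antisymm ?_ (hm0 z)
    have := hmle _ hb z
    rwa [hin _ z hdist] at this
  have hcross : ∀ x y, cellOf ρ x ∈ H → cellOf ρ y ∉ H → m x ≤ K * dist x y := by
    intro x y hx hy
    have hseg : IsPreconnected (segment ℝ x y) := (convex_segment x y).isPreconnected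
    obtain ⟨z, hz, hzf⟩ : ∃ z ∈ segment ℝ x y, z ∈ frontier R := by
      by_contra hcon
      push Not at hcon
      have hsub : segment ℝ x y ⊆ interior R ∪ interior Rᶜ := by
        intro z hz
        have hzf := hcon z hz
        by_cases hzR : z ∈ R
        · left
          by_contra hni
          exact hzf ⟨subset_closure hzR, hni⟩
        · right
          by_contra hni
          rw [interior_compl, mem_compl_iff, not_not] at hni
          exact hzf ⟨hni, fun hzi => hzR (interior_subset hzi)⟩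
      have hxi : x ∈ interior R := by
        rcases hsub (left_mem_segment ℝ x y) with h | h
        · exact h
        · exact absurd hx (interior_subset h)
      have hyi : y ∈ interior Rᶜ := by
        rcases hsub (right_mem_segment ℝ x y) with h | h
        · exact absurd (interior_subset h) hy
        · exact h
      obtain ⟨z, _, hz1, hz2⟩ := hseg _ _ isOpen_interior isOpen_interior hsub
        ⟨x, left_mem_segment ℝ x y, hxi⟩ ⟨y, right_mem_segment ℝ x y, hyi⟩
      exact (interior_subset hz2) (interior_subset hz1)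
    have hmz := hfront z hzf
    have h2 := hm.dist_le_mul x z
    rw [Real.dist_eq, hmz, sub_zero, abs_of_nonneg (hm0 x)] at h2
    refine h2.trans (mul_le_mul_of_nonneg_left ?_ K.2)
    have := dist_add_dist_of_mem_segment hz
    have h3 : 0 ≤ dist z y := dist_nonneg
    linarith
  have hLip : LipschitzWith K φ := by
    refine LipschitzWith.of_dist_le_mul fun x y => ?_
    rw [Real.dist_eq]
    by_cases hx : cellOf ρ x ∈ H
    · by_cases hy : cellOf ρ y ∈ H
      · rw [hφin x hx, hφin y hy, ← Real.dist_eq]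
        exact hm.dist_le_mul x y
      · rw [hφin x hx, hφout y hy, sub_zero, abs_of_nonneg (hm0 x)]
        exact hcross x y hx hy
    · by_cases hy : cellOf ρ y ∈ H
      · rw [hφin y hy, hφout x hx, zero_sub, abs_neg, abs_of_nonneg (hm0 y), dist_comm]
        exact hcross y x hy hx
      · rw [hφout x hx, hφout y hy, sub_self, abs_zero]
        positivity
  have hsupp : HasCompactSupport φ := by
    obtain ⟨M, hM⟩ : ∃ M : ℝ, ∀ a ∈ H, ‖ctr ρ a‖ ≤ M := by
      refine ⟨∑ a ∈ H, ‖ctr ρ a‖, fun a ha => ?_⟩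
      exact Finset.single_le_sum (f := fun a => ‖ctr ρ a‖) (fun _ _ => norm_nonneg _) ha
    refine HasCompactSupport.of_support_subset_isCompact (isCompact_closedBall (0 : ℂ) (M + ρ)) ?_
    intro z hz
    have hzH : cellOf ρ z ∈ H := by
      by_contra hcon
      exact hz (hφout z hcon)
    rw [mem_closedBall_zero_iff]
    calc ‖z‖ = ‖ctr ρ (cellOf ρ z) + (z - ctr ρ (cellOf ρ z))‖ := by congr 1; ring
      _ ≤ ‖ctr ρ (cellOf ρ z)‖ + ‖z - ctr ρ (cellOf ρ z)‖ := norm_add_le _ _
      _ ≤ M + ρ := add_le_add (hM _ hzH) (norm_sub_ctr_le hρ z)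
  refine ⟨φ, K, hLip, hsupp, hφ0, hφ1, hφout, ?_, ?_⟩
  · intro z hz hfar
    rw [hφin z hz]
    rcases hmeq z with h | ⟨b, hb, h⟩
    · exact h
    · rw [h]
      exact hout b z (hfar b hb)
  · have hdφ : ∀ᵐ z, DifferentiableAt ℝ φ z := hLip.ae_differentiableAt
    have hdζ : ∀ᵐ z, ∀ b ∈ B, DifferentiableAt ℝ (ζ b) z :=
      (Finset.eventually_all B).2 fun b _ => (hL b).ae_differentiableAt
    have hpt : ∀ᵐ z, ‖gradient φ z‖ ^ 2 ≤ ∑ b ∈ B, g b z := by
      filter_upwards [hdφ, hdζ] with z hz hzB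
      have hsum : 0 ≤ ∑ b ∈ B, g b z := Finset.sum_nonneg fun b _ => hg0 b z
      have hzero : fderiv ℝ φ z = 0 → ‖gradient φ z‖ ^ 2 ≤ ∑ b ∈ B, g b z := by
        intro h
        rw [gradient, h, map_zero, norm_zero]
        simpa using hsum
      by_cases hzH : cellOf ρ z ∈ H
      · rcases hmeq z with h | ⟨b, hb, h⟩
        · -- maximum
          apply hzero
          have hmax : IsLocalMax φ z := by
            refine Eventually.of_forall fun y => ?_
            show φ y ≤ φ z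
            rw [hφin z hzH, h]
            exact hφ1 y
          exact hmax.fderiv_eq_zero
        · have hmin : IsLocalMin (fun y => ζ b y - φ y) z := by
            refine Eventually.of_forall fun y => ?_
            show ζ b z - φ z ≤ ζ b y - φ y
            rw [hφin z hzH, h, sub_self]
            have := (hφm y).trans (hmle b hb y)
            linarith
          have h2 := hmin.fderiv_eq_zero
          have h3 : fderiv ℝ (fun y => ζ b y - φ y) z = fderiv ℝ (ζ b) z - fderiv ℝ φ z :=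
            fderiv_fun_sub (hzB b hb) hz
          rw [h3, sub_eq_zero] at h2
          have h4 : gradient φ z = gradient (ζ b) z := by
            rw [gradient, gradient, h2]
          rw [h4]
          refine (hgrad b z).trans ?_
          exact Finset.single_le_sum (f := fun b => g b z) (fun c _ => hg0 c z) hb
      · apply hzero
        have hmin : IsLocalMin φ z := by
          refine Eventually.of_forall fun y => ?_
          show φ z ≤ φ y
          rw [hφout z hzH]
          exact hφ0 y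
        exact hmin.fderiv_eq_zero
    have hint : Integrable (fun z => ∑ b ∈ B, g b z) volume :=
      integrable_finsetSum _ fun b _ => hgi b
    calc ∫ z, ‖gradient φ z‖ ^ 2 ≤ ∫ z, ∑ b ∈ B, g b z :=
          integral_mono_of_nonneg (Eventually.of_forall fun z => by positivity) hint hpt
      _ = ∑ b ∈ B, ∫ z, g b z := integral_finsetSum _ fun b _ => hgi b
      _ ≤ ∑ _b ∈ B, 4 * Real.pi / N := Finset.sum_le_sum fun b _ => hgint b
      _ = B.card * (4 * Real.pi / N) := by rw [Finset.sum_const, nsmul_eq_mul]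

end Pool.Agent.H41.Ev
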