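import Pool.Agent.H47.Ev.Pen

/-!
Theorem R, second part: comparison and size of the penalisation.
-/

open MeasureTheory Set Metric Filter Topology ContDiff
open scoped ENNReal RealInnerProductSpace

namespace Pool.Agent.H41.Ev

open Pool.Agent.H47.FQ

variable {Ω Ω' U : Set ℂ} {u v w w' : ℂ → ℝ} {G H W W' : ℂ → ℂ} {φ : ℂ → ℝ}

/-- Comparison: the solution of the penalised problem lies above `w'`. -/
theorem penalised_ge (hU : IsOpen U) (hfin : volume U < ⊤) (hw' : H10 U w' W')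
    (hS : ∀ Φ H, H10 U Φ H → (∀ᵐ z, 0 ≤ Φ z) → ∫ z, ⟪W' z, H z⟫ ≤ ∫ z, Φ z) {n : ℝ}
    (hu : H10 U u G) (heq : ∀ v H, H10 U v H →
      (∫ z, ⟪G z, H z⟫) + n * (∫ z, max (u z - w' z) 0 * v z) = ∫ z, v z) :
    ∀ᵐ z, w' z ≤ u z := by
  classical
  obtain ⟨l, hl, hgap⟩ := exists_gap hU hfin
  have hd := (hw'.sub hu).pos_part
  set Φ : ℂ → ℝ := fun z => max (w' z - u z) 0 with hΦ
  set P : ℂ → ℂ := fun z => if 0 < w' z - u z then W' z - G z else 0 with hP
  have e1 := hS Φ P hd (Eventually.of_forall fun z => le_max_right _ _)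
  have e2 := heq Φ P hd
  have e3 : ∫ z, max (u z - w' z) 0 * Φ z = 0 := by
    refine integral_eq_zero_of_ae (Eventually.of_forall fun z => ?_)
    show max (u z - w' z) 0 * max (w' z - u z) 0 = 0
    rcases le_total (u z) (w' z) with h | h
    · rw [max_eq_right (by linarith), zero_mul]
    · rw [max_eq_right (a := w' z - u z) (by linarith), mul_zero]
  rw [e3, mul_zero, add_zero] at e2
  have i1 : Integrable (fun z => ⟪W' z, P z⟫) := int_inner hw'.memLp_grad hd.memLp_grad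
  have i2 : Integrable (fun z => ⟪G z, P z⟫) := int_inner hu.memLp_grad hd.memLp_grad
  have e4 : ∫ z, ‖P z‖ ^ 2 = (∫ z, ⟪W' z, P z⟫) - ∫ z, ⟪G z, P z⟫ := by
    rw [← integral_sub i1 i2]
    refine integral_congr_ae (Eventually.of_forall fun z => ?_)
    show ‖P z‖ ^ 2 = ⟪W' z, P z⟫ - ⟪G z, P z⟫
    rw [← inner_sub_left, hP]
    by_cases h : 0 < w' z - u z
    · simp only [h, if_true]
      rw [← real_inner_self_eq_norm_sq]
    · simp only [h, if_false]; simp
  have e5 : ∫ z, ‖P z‖ ^ 2 ≤ 0 := by rw [e4, e2]; linarith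
  have e6 := hgap Φ P hd
  have e7 : ∫ z, Φ z ^ 2 ≤ 0 := by
    by_contra hcon
    push Not at hcon
    have : 0 < l * ∫ z, Φ z ^ 2 := mul_pos hl hcon
    linarith
  have e8 : ∫ z, Φ z ^ 2 = 0 := le_antisymm e7 (by positivity)
  rw [integral_eq_zero_iff_of_nonneg (fun z => by positivity) hd.memLp.integrable_sq] at e8
  filter_upwards [e8] with z hz
  have h0 : Φ z = 0 := by simpa using hz
  have h1 : w' z - u z ≤ 0 := by
    have := le_max_left (w' z - u z) 0
    rw [hΦ] at h0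
    simp only at h0
    linarith
  linarith

/-- The excess over the obstacle is small. -/
theorem penalised_small (hU : IsOpen U) (hfin : volume U < ⊤) (hw' : H10 U w' W') {n : ℝ}
    (hn : 1 ≤ n) (hu : H10 U u G) (heq : ∀ v H, H10 U v H →
      (∫ z, ⟪G z, H z⟫) + n * (∫ z, max (u z - w' z) 0 * v z) = ∫ z, v z)
    (hge : ∀ᵐ z, w' z ≤ u z) :
    n * ∫ z, (u z - w' z) ^ 2 ≤ (volume U).toReal + ∫ z, ‖W' z‖ ^ 2 := by
  set d : ℂ → ℝ := fun z => u z - w' z with hd
  set D : ℂ → ℂ := fun z => G z - W' z with hD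
  have hdD : H10 U d D := hu.sub hw'
  have e1 := heq d D hdD
  have e2 : ∫ z, max (u z - w' z) 0 * d z = ∫ z, d z ^ 2 := by
    refine integral_congr_ae ?_
    filter_upwards [hge] with z hz
    show max (u z - w' z) 0 * (u z - w' z) = (u z - w' z) ^ 2
    rw [max_eq_left (by linarith)]; ring
  rw [e2] at e1
  have hone2 : MemLp (U.indicator (fun _ => (1 : ℝ))) 2 (volume : Measure ℂ) := memLp_ind hU hfin
  have i1 : Integrable (fun z => ⟪G z, D z⟫) := int_inner hu.memLp_grad hdD.memLp_grad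
  have i2 : Integrable (fun z => ⟪W' z, D z⟫) := int_inner hw'.memLp_grad hdD.memLp_grad
  have e3 : ∫ z, ⟪G z, D z⟫ = (∫ z, ‖D z‖ ^ 2) + ∫ z, ⟪W' z, D z⟫ := by
    rw [← integral_add (int_norm_sq hdD.memLp_grad) i2]
    refine integral_congr_ae (Eventually.of_forall fun z => ?_)
    show ⟪G z, D z⟫ = ‖D z‖ ^ 2 + ⟪W' z, D z⟫
    rw [← real_inner_self_eq_norm_sq, ← inner_add_left]
    congr 1
    rw [hD]; ring
  have e4 : ∫ z, d z ≤ (1 / 2) * (volume U).toReal + (1 / 2) * ∫ z, d z ^ 2 := by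
    rw [← int_ind_mul hU hdD]
    have h1 : ∫ z, (U.indicator (fun _ => (1 : ℝ))) z ^ 2 = (volume U).toReal := by
      have : (fun z => (U.indicator (fun _ => (1 : ℝ))) z ^ 2) = U.indicator (fun _ => (1 : ℝ)) := by
        funext z
        by_cases h : z ∈ U <;> simp [h]
      rw [this, integral_indicator hU.measurableSet]
      simp [Measure.real]
    rw [← h1, ← integral_const_mul, ← integral_const_mul, ← integral_add
      (hone2.integrable_sq.const_mul _) (hdD.memLp.integrable_sq.const_mul _)]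
    refine integral_mono (int_mul hone2 hdD.memLp)
      ((hone2.integrable_sq.const_mul _).add (hdD.memLp.integrable_sq.const_mul _)) fun z => ?_
    show U.indicator (fun _ => (1 : ℝ)) z * d z ≤
      1 / 2 * U.indicator (fun _ => (1 : ℝ)) z ^ 2 + 1 / 2 * d z ^ 2
    nlinarith [sq_nonneg (U.indicator (fun _ => (1 : ℝ)) z - d z)]
  have e5 : -(∫ z, ⟪W' z, D z⟫) ≤ (1 / 2) * (∫ z, ‖W' z‖ ^ 2) + (1 / 2) * ∫ z, ‖D z‖ ^ 2 := by
    rw [← integral_neg, ← integral_const_mul, ← integral_const_mul, ← integral_add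
      ((int_norm_sq hw'.memLp_grad).const_mul _) ((int_norm_sq hdD.memLp_grad).const_mul _)]
    refine integral_mono i2.neg
      (((int_norm_sq hw'.memLp_grad).const_mul _).add
        ((int_norm_sq hdD.memLp_grad).const_mul _)) fun z => ?_
    show -⟪W' z, D z⟫ ≤ 1 / 2 * ‖W' z‖ ^ 2 + 1 / 2 * ‖D z‖ ^ 2
    have h := abs_real_inner_le_norm (W' z) (D z)
    have h2 := neg_abs_le (⟪W' z, D z⟫ : ℝ)
    nlinarith [sq_nonneg (‖W' z‖ - ‖D z‖)]
  have h0 : 0 ≤ ∫ z, ‖D z‖ ^ 2 := by positivity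
  have h0' : 0 ≤ ∫ z, d z ^ 2 := by positivity
  show n * ∫ z, d z ^ 2 ≤ _
  nlinarith

end Pool.Agent.H41.Ev
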