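import Pool.Agent.H47.Ev.Comp

/-!
Theorem R, third part: the eigenvalue estimate.
-/

open MeasureTheory Set Metric Filter Topology ContDiff
open scoped ENNReal RealInnerProductSpace

namespace Pool.Agent.H41.Ev

open Pool.Agent.H47.FQ

variable {Ω Ω' U : Set ℂ} {u v w w' : ℂ → ℝ} {G H W W' : ℂ → ℂ} {φ : ℂ → ℝ}

theorem IsTest.bdd (h : IsTest U φ) : ∃ C : ℝ, 0 < C ∧ ∀ z, |φ z| ≤ C := by
  obtain ⟨C, hC⟩ := h.2.1.exists_bound_of_continuous h.1.continuous
  refine ⟨max C 1, by positivity, fun z => ?_⟩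
  have := hC z
  rw [Real.norm_eq_abs] at this
  exact this.trans (le_max_left _ _)

theorem IsTest.sq (h : IsTest U φ) : IsTest U (fun z => φ z ^ 2) := by
  have hsupp : (fun z => φ z ^ 2) = fun z => φ z * φ z := by funext z; ring
  refine ⟨h.1.pow 2, ?_, ?_⟩
  · rw [hsupp]; exact h.2.1.mul_right
  · rw [hsupp]
    exact (tsupport_mul_subset_left).trans h.2.2

theorem gradient_sq (h : IsTest U φ) (z : ℂ) :
    gradient (fun z => φ z ^ 2) z = (2 * φ z) • gradient φ z := by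
  have hd : DifferentiableAt ℝ φ z := (h.1.differentiable (by simp)) z
  have h1 : HasFDerivAt (fun z => φ z ^ 2) ((2 * φ z) • fderiv ℝ φ z) z := by
    have := hd.hasFDerivAt.pow 2
    simpa using this
  rw [gradient, h1.fderiv, gradient, map_smul]

/-- The eigenvalue estimate at level `s`. -/
theorem eig_estimate_s (hΩ : IsOpen Ω) (hΩU : Ω ⊆ U) (hΩfin : volume Ω < ⊤)
    (hlam : RQ Ω 1) (hw : IsTorsion Ω w W) (hw0 : ∀ᵐ z, 0 ≤ w z) (hw' : H10 U w' W')
    (hge : ∀ᵐ z, w z ≤ w' z)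
    (hhalf : ∀ᵐ z, w' z ≠ w z → w' z ≤ 1 / 2) {n : ℝ} (hn : 0 ≤ n)
    (hu : H10 U u G) (heq : ∀ v H, H10 U v H →
      (∫ z, ⟪G z, H z⟫) + n * (∫ z, max (u z - w' z) 0 * v z) = ∫ z, v z)
    (huge : ∀ᵐ z, w' z ≤ u z) (hφ : IsTest U φ) {s : ℝ} (hs : 0 < s) :
    (∫ z, φ z ^ 2) - 4 * (∫ z, (u z - w' z) * φ z ^ 2) - 4 * s * (∫ z, φ z ^ 2)
      ≤ (∫ z, ‖gradient φ z‖ ^ 2) + ∫ z, (n * (u z - w' z) / u z) * φ z ^ 2 := by
  obtain ⟨C, hC, hφC⟩ := hφ.bdd
  have hu0 : ∀ᵐ z, 0 ≤ u z := by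
    filter_upwards [hw0, hge, huge] with z h1 h2 h3
    linarith
  -- the quotient `ψ`
  set ψ : ℂ → ℝ := fun z => φ z / (u z + s) with hψdef
  set P : ℂ → ℂ := fun z => (1 / (u z + s)) • gradient φ z - (φ z / (u z + s) ^ 2) • G z
    with hPdef
  have hψ : H10 U ψ P := H10.div_add hφ hu hu0 hs
  have hψC : ∀ᵐ z, |ψ z| ≤ C / s := by
    filter_upwards [hu0] with z hz
    rw [hψdef]
    simp only
    rw [abs_div, abs_of_pos (show 0 < u z + s by linarith)]
    exact div_le_div₀ hC.le (hφC z) hs (by linarith)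
  -- the quotient `φ² / (u + s)`
  have hφ2 := hφ.sq
  set Q : ℂ → ℂ := fun z => (1 / (u z + s)) • gradient (fun z => φ z ^ 2) z
    - (φ z ^ 2 / (u z + s) ^ 2) • G z with hQdef
  have hQ : H10 U (fun z => φ z ^ 2 / (u z + s)) Q := H10.div_add hφ2 hu hu0 hs
  have e3 := heq _ Q hQ
  have igφ : Integrable (fun z => ‖gradient φ z‖ ^ 2) := int_norm_sq hφ.h10.memLp_grad
  have iGQ : Integrable (fun z => ⟪G z, Q z⟫) := int_inner hu.memLp_grad hQ.memLp_grad
  have hpic : ∀ᵐ z, (u z + s) ^ 2 * ‖P z‖ ^ 2 = ‖gradient φ z‖ ^ 2 - ⟪G z, Q z⟫ := by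
    filter_upwards [hu0] with z hz
    have hpos : 0 < u z + s := by linarith
    have h := picone (gradient φ z) (G z) (φ z) hpos
    have hQz : Q z = (2 * φ z / (u z + s)) • gradient φ z - (φ z ^ 2 / (u z + s) ^ 2) • G z := by
      rw [hQdef]
      simp only
      rw [gradient_sq hφ z, smul_smul]
      congr 2
      ring
    rw [hQz, h, hPdef]
    ring
  have iWP : Integrable (fun z => (u z + s) ^ 2 * ‖P z‖ ^ 2) :=
    (igφ.sub iGQ).congr (by filter_upwards [hpic] with z hz; rw [hz]; rfl)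
  have e3' : ∫ z, ⟪G z, Q z⟫ = (∫ z, ‖gradient φ z‖ ^ 2) - ∫ z, (u z + s) ^ 2 * ‖P z‖ ^ 2 := by
    rw [← integral_sub igφ iWP]
    refine integral_congr_ae ?_
    filter_upwards [hpic] with z hz
    rw [hz]; ring
  -- products with `w`
  have hwP : MemLp (fun z => w z • P z) 2 volume := by
    have hdom : MemLp (fun z => ‖gradient φ z‖ + (C / s) * ‖G z‖) 2 (volume : Measure ℂ) :=
      (hφ.h10.memLp_grad.norm).add ((hu.memLp_grad.norm).const_mul _)
    refine hdom.mono' (hw.1.memLp.1.smul hψ.memLp_grad.1) ?_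
    filter_upwards [hw0, hge, huge] with z h1 h2 h3
    have hpos : 0 < u z + s := by linarith
    have hle : w z ≤ u z + s := by linarith
    have hwz : w z • P z = (w z / (u z + s)) • gradient φ z
        - ((w z / (u z + s)) * (φ z / (u z + s))) • G z := by
      rw [hPdef]
      simp only
      rw [smul_sub, smul_smul, smul_smul]
      congr 2
      · ring
      · field_simp
    have hq0 : 0 ≤ w z / (u z + s) := by positivity
    have hq1 : w z / (u z + s) ≤ 1 := (div_le_one hpos).2 hle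
    have hq2 : |φ z / (u z + s)| ≤ C / s := by
      rw [abs_div, abs_of_pos hpos]
      exact div_le_div₀ hC.le (hφC z) hs (by linarith)
    rw [hwz]
    refine (norm_sub_le _ _).trans ?_
    rw [norm_smul, norm_smul, Real.norm_eq_abs, Real.norm_eq_abs, abs_mul, abs_of_nonneg hq0]
    refine add_le_add ?_ ?_
    · exact mul_le_of_le_one_left (norm_nonneg _) hq1
    · refine mul_le_mul_of_nonneg_right ?_ (norm_nonneg _)
      calc w z / (u z + s) * |φ z / (u z + s)| ≤ 1 * (C / s) :=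
            mul_le_mul hq1 hq2 (abs_nonneg _) zero_le_one
        _ = C / s := one_mul _
  have hwψ' := hw.1.mul hψ hψC hwP
  rw [inter_eq_left.2 hΩU] at hwψ'
  have hwψP : MemLp (fun z => (w z * ψ z) • P z) 2 volume := by
    have hdom : MemLp (fun z => (C / s) * ‖w z • P z‖) 2 (volume : Measure ℂ) :=
      (hwP.norm).const_mul _
    refine hdom.mono' (hwψ'.memLp.1.smul hψ.memLp_grad.1) ?_
    filter_upwards [hψC] with z hz
    rw [mul_comm (w z), ← smul_smul, norm_smul]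
    exact mul_le_mul_of_nonneg_right (by simpa using hz) (norm_nonneg _)
  have hwψ2 := hwψ'.mul hψ hψC hwψP
  rw [inter_eq_left.2 hΩU] at hwψ2
  have e4 := RQ.all hlam hwψ'
  have e5 := hw.all hΩ hΩfin hwψ2
  set R : ℂ → ℂ := fun z => w z • P z + ψ z • W z with hRdef
  set R2 : ℂ → ℂ := fun z => (w z * ψ z) • P z + ψ z • (w z • P z + ψ z • W z) with hR2def
  have iR : Integrable (fun z => ‖R z‖ ^ 2) := int_norm_sq hwψ'.memLp_grad
  have iR2 : Integrable (fun z => ⟪W z, R2 z⟫) := int_inner hw.1.memLp_grad hwψ2.memLp_grad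
  have hprod : ∀ z, w z ^ 2 * ‖P z‖ ^ 2 = ‖R z‖ ^ 2 - ⟪W z, R2 z⟫ := by
    intro z
    have h := prod_sq (W z) (P z) (w z) (ψ z)
    have h1 : R z = ψ z • W z + w z • P z := by rw [hRdef]; simp only; rw [add_comm]
    have h2 : R2 z = (ψ z ^ 2) • W z + (2 * w z * ψ z) • P z := by
      rw [hR2def]
      simp only
      rw [smul_add, smul_smul, smul_smul, ← add_assoc, ← add_smul, add_comm]
      congr 2
      · ring
      · ring
    rw [h1, h2, h]; ring
  have iwP : Integrable (fun z => w z ^ 2 * ‖P z‖ ^ 2) :=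
    (iR.sub iR2).congr (Eventually.of_forall fun z => (hprod z).symm)
  have e6 : ∫ z, w z ^ 2 * ‖P z‖ ^ 2 = (∫ z, ‖R z‖ ^ 2) - ∫ z, ⟪W z, R2 z⟫ := by
    rw [← integral_sub iR iR2]
    exact integral_congr_ae (Eventually.of_forall fun z => hprod z)
  have e7 : ∫ z, w z ^ 2 * ‖P z‖ ^ 2 ≤ ∫ z, (u z + s) ^ 2 * ‖P z‖ ^ 2 := by
    refine integral_mono_ae iwP iWP ?_
    filter_upwards [hw0, hge, huge] with z h1 h2 h3
    have hle : w z ≤ u z + s := by linarith
    have : w z ^ 2 ≤ (u z + s) ^ 2 := by nlinarith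
    exact mul_le_mul_of_nonneg_right this (by positivity)
  -- integrability of the scalar terms
  have iφ2 : Integrable (fun z => φ z ^ 2) := hφ.h10.memLp.integrable_sq
  have hφsq2 : MemLp (fun z => φ z ^ 2) 2 (volume : Measure ℂ) := hφ2.h10.memLp
  have hvmem : MemLp (fun z => u z - w' z) 2 (volume : Measure ℂ) := (hu.sub hw').memLp
  have ivφ : Integrable (fun z => (u z - w' z) * φ z ^ 2) := int_mul hvmem hφsq2
  have iwψ : Integrable (fun z => (w z * ψ z) ^ 2) := hwψ'.memLp.integrable_sq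
  have iwψψ : Integrable (fun z => w z * ψ z * ψ z) := int_mul hwψ'.memLp hψ.memLp
  have iq : Integrable (fun z => φ z ^ 2 / (u z + s)) := by
    have : (fun z => φ z ^ 2 / (u z + s)) = fun z => φ z * ψ z := by
      funext z; rw [hψdef]; ring
    rw [this]
    exact int_mul hφ.h10.memLp hψ.memLp
  have e8 : (∫ z, φ z ^ 2) - 4 * (∫ z, (u z - w' z) * φ z ^ 2) - 4 * s * (∫ z, φ z ^ 2)
      ≤ (∫ z, (w z * ψ z) ^ 2) - (∫ z, w z * ψ z * ψ z) + ∫ z, φ z ^ 2 / (u z + s) := by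
    have iA : Integrable (fun z => φ z ^ 2 - 4 * ((u z - w' z) * φ z ^ 2)) :=
      iφ2.sub (ivφ.const_mul 4)
    have iB : Integrable (fun z => (w z * ψ z) ^ 2 - w z * ψ z * ψ z) := iwψ.sub iwψψ
    have hL : ∫ z, (φ z ^ 2 - 4 * ((u z - w' z) * φ z ^ 2) - 4 * s * φ z ^ 2)
        = (∫ z, φ z ^ 2) - 4 * (∫ z, (u z - w' z) * φ z ^ 2) - 4 * s * (∫ z, φ z ^ 2) := by
      rw [integral_sub iA (iφ2.const_mul (4 * s)), integral_sub iφ2 (ivφ.const_mul 4),
        integral_const_mul, integral_const_mul]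
    have hR : ∫ z, ((w z * ψ z) ^ 2 - w z * ψ z * ψ z + φ z ^ 2 / (u z + s))
        = (∫ z, (w z * ψ z) ^ 2) - (∫ z, w z * ψ z * ψ z) + ∫ z, φ z ^ 2 / (u z + s) := by
      rw [integral_add iB iq, integral_sub iwψ iwψψ]
    rw [← hL, ← hR]
    refine integral_mono_ae (iA.sub (iφ2.const_mul (4 * s))) (iB.add iq) ?_
    filter_upwards [hw0, hge, huge, hhalf] with z h1 h2 h3 h4
    have hpos : 0 < u z + s := by linarith
    have h := scalar_ineq (w := w z) (w' := w' z) (v := u z - w' z) (s := s) (W := u z + s)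
      (φ := φ z) h1 h2 (by linarith) hs (by ring) h4
    have h5 : (u z + s) * (φ z / (u z + s)) ^ 2 = φ z ^ 2 / (u z + s) := by
      field_simp
    rw [h5] at h
    show φ z ^ 2 - 4 * ((u z - w' z) * φ z ^ 2) - 4 * s * φ z ^ 2
      ≤ (w z * (φ z / (u z + s))) ^ 2 - w z * (φ z / (u z + s)) * (φ z / (u z + s))
        + φ z ^ 2 / (u z + s)
    nlinarith
  -- the potential term
  have iV1 : Integrable (fun z => max (u z - w' z) 0 * (φ z ^ 2 / (u z + s))) := by
    have hm : MemLp (fun z => max (u z - w' z) 0) 2 (volume : Measure ℂ) :=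
      hvmem.sup (MemLp.zero' )
    exact int_mul hm hQ.memLp
  have iV2 : Integrable (fun z => (n * (u z - w' z) / u z) * φ z ^ 2) := by
    refine Integrable.mono' (iφ2.const_mul n) ?_ ?_
    · exact (((hvmem.1.const_mul n).div₀ hu.memLp.1).mul hφsq2.1)
    · filter_upwards [hw0, hge, huge] with z h1 h2 h3
      rw [Real.norm_eq_abs, abs_mul, abs_of_nonneg (sq_nonneg (φ z))]
      refine mul_le_mul_of_nonneg_right ?_ (sq_nonneg _)
      have h4 : 0 ≤ n * (u z - w' z) / u z := by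
        apply div_nonneg (mul_nonneg hn (by linarith)) (by linarith)
      rw [abs_of_nonneg h4]
      rcases eq_or_lt_of_le (show 0 ≤ u z by linarith) with h5 | h5
      · rw [← h5]; simp [hn]
      · rw [div_le_iff₀ h5]
        exact mul_le_mul_of_nonneg_left (by linarith) hn
  have e9 : n * (∫ z, max (u z - w' z) 0 * (φ z ^ 2 / (u z + s)))
      ≤ ∫ z, (n * (u z - w' z) / u z) * φ z ^ 2 := by
    rw [← integral_const_mul]
    refine integral_mono_ae (iV1.const_mul n) iV2 ?_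
    filter_upwards [hw0, hge, huge] with z h1 h2 h3
    show n * (max (u z - w' z) 0 * (φ z ^ 2 / (u z + s))) ≤ n * (u z - w' z) / u z * φ z ^ 2
    rw [max_eq_left (by linarith)]
    rcases eq_or_lt_of_le (show 0 ≤ u z by linarith) with h5 | h5
    · have h6 : u z - w' z = 0 := by linarith
      rw [h6]; simp
    · have h7 : (u z - w' z) / (u z + s) ≤ (u z - w' z) / u z :=
        div_le_div_of_nonneg_left (by linarith) h5 (by linarith)
      have h8 : n * ((u z - w' z) * (φ z ^ 2 / (u z + s)))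
          = n * ((u z - w' z) / (u z + s)) * φ z ^ 2 := by ring
      have h9 : n * (u z - w' z) / u z * φ z ^ 2 = n * ((u z - w' z) / u z) * φ z ^ 2 := by ring
      rw [h8, h9]
      exact mul_le_mul_of_nonneg_right (mul_le_mul_of_nonneg_left h7 hn) (sq_nonneg _)
  linarith

/-- The eigenvalue estimate. -/
theorem eig_estimate (hΩ : IsOpen Ω) (hΩU : Ω ⊆ U) (hΩfin : volume Ω < ⊤)
    (hlam : RQ Ω 1) (hw : IsTorsion Ω w W) (hw0 : ∀ᵐ z, 0 ≤ w z) (hw' : H10 U w' W')
    (hge : ∀ᵐ z, w z ≤ w' z)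
    (hhalf : ∀ᵐ z, w' z ≠ w z → w' z ≤ 1 / 2) {n : ℝ} (hn : 0 ≤ n)
    (hu : H10 U u G) (heq : ∀ v H, H10 U v H →
      (∫ z, ⟪G z, H z⟫) + n * (∫ z, max (u z - w' z) 0 * v z) = ∫ z, v z)
    (huge : ∀ᵐ z, w' z ≤ u z) (hφ : IsTest U φ) :
    (∫ z, φ z ^ 2) - 4 * (∫ z, (u z - w' z) * φ z ^ 2)
      ≤ (∫ z, ‖gradient φ z‖ ^ 2) + ∫ z, (n * (u z - w' z) / u z) * φ z ^ 2 := by
  refine le_of_forall_pos_le_add fun ε hε => ?_
  have h0 : 0 ≤ ∫ z, φ z ^ 2 := by positivity
  have h := eig_estimate_s hΩ hΩU hΩfin hlam hw hw0 hw' hge hhalf hn hu heq huge hφ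
    (s := ε / (4 * (∫ z, φ z ^ 2) + 1)) (by positivity)
  have h1 : 4 * (ε / (4 * (∫ z, φ z ^ 2) + 1)) * (∫ z, φ z ^ 2) ≤ ε := by
    rw [mul_div_assoc', div_mul_eq_mul_div, div_le_iff₀ (by positivity)]
    nlinarith
  linarith

end Pool.Agent.H41.Ev
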