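import Pool.Agent.H41.Ev.Tors
import Pool.Agent.H2.Ev.Ineq
import Pool.Agent.H85.Ev.Weak
import Pool.Agent.H47.Ev.L2
import Pool.Agent.H47.FQPoint

/-!
Theorem R, first part: the penalised obstacle problem.
-/

open MeasureTheory Set Metric Filter Topology ContDiff
open scoped ENNReal RealInnerProductSpace

namespace Pool.Agent.H41.Ev

open Pool.Agent.H47.FQ

variable {Ω Ω' U : Set ℂ} {u v w w' : ℂ → ℝ} {G H W W' : ℂ → ℂ} {φ : ℂ → ℝ}

/-- Poincare in the form used here. -/
theorem exists_gap (hU : IsOpen U) (hfin : volume U < ⊤) :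
    ∃ l : ℝ, 0 < l ∧ ∀ u G, H10 U u G → l * ∫ z, u z ^ 2 ≤ ∫ z, ‖G z‖ ^ 2 := by
  obtain ⟨C, hC, h⟩ := poincare
  refine ⟨1 / (C * (volume U).toReal + 1), by positivity, fun u G hu => ?_⟩
  have h1 := h U u G hU hfin hu
  have h2 : 0 ≤ ∫ z, ‖G z‖ ^ 2 := by positivity
  rw [div_mul_eq_mul_div, one_mul, div_le_iff₀ (by positivity)]
  nlinarith

/-- the indicator of `U` is square integrable -/
theorem memLp_ind (hU : IsOpen U) (hfin : volume U < ⊤) :
    MemLp (U.indicator (fun _ => (1 : ℝ))) 2 (volume : Measure ℂ) :=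
  memLp_indicator_const 2 hU.measurableSet 1 (Or.inr hfin.ne)

theorem int_ind_mul (hU : IsOpen U) (hv : H10 U v H) :
    ∫ z, U.indicator (fun _ => (1 : ℝ)) z * v z = ∫ z, v z := by
  refine integral_congr_ae ?_
  filter_upwards [hv.ae_zero hU] with z hz
  by_cases h : z ∈ U
  · simp [h]
  · simp [h, (hz h).1]

/-- The penalised problem. -/
theorem exists_penalised (hU : IsOpen U) (hfin : volume U < ⊤) (hw' : MemLp w' 2 volume) {n : ℝ}
    (hn : 0 < n) :
    ∃ u G, H10 U u G ∧ ∀ v H, H10 U v H →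
      (∫ z, ⟪G z, H z⟫) + n * (∫ z, max (u z - w' z) 0 * v z) = ∫ z, v z := by
  obtain ⟨l, hl, hgap⟩ := exists_gap hU hfin
  set one : ℂ → ℝ := U.indicator (fun _ => (1 : ℝ)) with hone
  have hone2 : MemLp one 2 (volume : Measure ℂ) := memLp_ind hU hfin
  let data : (ℂ → ℝ) → ℂ → ℝ := fun f z => one z + n * min (f z) (w' z)
  have hmin : ∀ f : ℂ → ℝ, MemLp f 2 (volume : Measure ℂ) →
      MemLp (fun z => min (f z) (w' z)) 2 (volume : Measure ℂ) := by
    intro f hf
    exact hf.inf hw'
  have hdata : ∀ f : ℂ → ℝ, MemLp f 2 (volume : Measure ℂ) →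
      MemLp (data f) 2 (volume : Measure ℂ) := by
    intro f hf
    exact hone2.add ((hmin f hf).const_mul n)
  have hsol : ∀ f : Lp ℝ 2 (volume : Measure ℂ), ∃ u G, H10 U u G ∧ ∀ v H, H10 U v H →
      (∫ z, ⟪G z, H z⟫) + n * (∫ z, u z * v z) = ∫ z, data f z * v z := fun f =>
    exists_weak hU hfin hn.le (hdata f (Lp.memLp f))
  choose S GS hS hSeq using hsol
  let T : Lp ℝ 2 (volume : Measure ℂ) → Lp ℝ 2 (volume : Measure ℂ) := fun f =>
    (hS f).memLp.toLp (S f)
  have hnorm : ∀ f : Lp ℝ 2 (volume : Measure ℂ), ‖f‖ ^ 2 = ∫ z, (f z) ^ 2 := by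
    intro f
    rw [Lp.norm_def, eLpNorm_two_sq (Lp.memLp f)]
    simp
  have hcontr : ∀ f g : Lp ℝ 2 (volume : Measure ℂ), ‖T f - T g‖ ≤ n / (n + l) * ‖f - g‖ := by
    intro f g
    set d : ℂ → ℝ := fun z => S f z - S g z with hd
    set D : ℂ → ℂ := fun z => GS f z - GS g z with hD
    have hdD : H10 U d D := (hS f).sub (hS g)
    have e1 := hSeq f d D hdD
    have e2 := hSeq g d D hdD
    have iD : Integrable (fun z => ⟪GS f z, D z⟫) := int_inner (hS f).memLp_grad hdD.memLp_grad
    have iD' : Integrable (fun z => ⟪GS g z, D z⟫) := int_inner (hS g).memLp_grad hdD.memLp_grad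
    have iu : Integrable (fun z => S f z * d z) := int_mul (hS f).memLp hdD.memLp
    have iu' : Integrable (fun z => S g z * d z) := int_mul (hS g).memLp hdD.memLp
    have if1 : Integrable (fun z => data f z * d z) :=
      int_mul (hdata f (Lp.memLp f)) hdD.memLp
    have ig1 : Integrable (fun z => data g z * d z) :=
      int_mul (hdata g (Lp.memLp g)) hdD.memLp
    have e3 : (∫ z, ‖D z‖ ^ 2) + n * ∫ z, d z ^ 2
        = n * ∫ z, (min (f z) (w' z) - min (g z) (w' z)) * d z := by
      have h1 : ∫ z, ‖D z‖ ^ 2 = (∫ z, ⟪GS f z, D z⟫) - ∫ z, ⟪GS g z, D z⟫ := by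
        rw [← integral_sub iD iD']
        refine integral_congr_ae (Eventually.of_forall fun z => ?_)
        show ‖D z‖ ^ 2 = ⟪GS f z, D z⟫ - ⟪GS g z, D z⟫
        rw [← inner_sub_left, ← real_inner_self_eq_norm_sq]
      have h2 : ∫ z, d z ^ 2 = (∫ z, S f z * d z) - ∫ z, S g z * d z := by
        rw [← integral_sub iu iu']
        refine integral_congr_ae (Eventually.of_forall fun z => ?_)
        show d z ^ 2 = S f z * d z - S g z * d z
        rw [hd]; ring
      have h3 : n * ∫ z, (min (f z) (w' z) - min (g z) (w' z)) * d z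
          = (∫ z, data f z * d z) - ∫ z, data g z * d z := by
        rw [← integral_sub if1 ig1, ← integral_const_mul]
        refine integral_congr_ae (Eventually.of_forall fun z => ?_)
        show n * ((min (f z) (w' z) - min (g z) (w' z)) * d z) = data f z * d z - data g z * d z
        simp only [data]; ring
      rw [h1, h2, h3, ← e1, ← e2]; ring
    have hmm : MemLp (fun z => min (f z) (w' z) - min (g z) (w' z)) 2 (volume : Measure ℂ) :=
      (hmin f (Lp.memLp f)).sub (hmin g (Lp.memLp g))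
    have hfg : MemLp (fun z => f z - g z) 2 (volume : Measure ℂ) :=
      (Lp.memLp f).sub (Lp.memLp g)
    have e4 : ∫ z, (min (f z) (w' z) - min (g z) (w' z)) * d z
        ≤ ∫ z, |f z - g z| * |d z| := by
      refine integral_mono_ae (int_mul hmm hdD.memLp) (int_abs_mul hfg hdD.memLp)
        (Eventually.of_forall fun z => ?_)
      show (min (f z) (w' z) - min (g z) (w' z)) * d z ≤ |f z - g z| * |d z|
      refine (le_abs_self _).trans ?_
      rw [abs_mul]
      refine mul_le_mul_of_nonneg_right ?_ (abs_nonneg _)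
      have := abs_min_sub_min_le_max (f z) (w' z) (g z) (w' z)
      simpa using this
    have e5 := cs_abs hfg hdD.memLp
    have hTd : ‖T f - T g‖ ^ 2 = ∫ z, d z ^ 2 := by
      rw [hnorm]
      refine integral_congr_ae ?_
      filter_upwards [Lp.coeFn_sub (T f) (T g), (hS f).memLp.coeFn_toLp,
        (hS g).memLp.coeFn_toLp] with z h1 h2 h3
      rw [h1]
      simp only [Pi.sub_apply, T, h2, h3, hd]
    have hfgn : ‖f - g‖ ^ 2 = ∫ z, (f z - g z) ^ 2 := by
      rw [hnorm]
      refine integral_congr_ae ?_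
      filter_upwards [Lp.coeFn_sub f g] with z h1
      rw [h1]; rfl
    rw [← hTd, ← hfgn, Real.sqrt_sq (norm_nonneg _), Real.sqrt_sq (norm_nonneg _)] at e5
    have e6 := hgap d D hdD
    rw [← hTd] at e6 e3
    set a := ‖T f - T g‖ with ha
    set b := ‖f - g‖ with hb
    have ha0 : 0 ≤ a := norm_nonneg _
    have hb0 : 0 ≤ b := norm_nonneg _
    have e7 : (n + l) * a ^ 2 ≤ n * (b * a) := by
      have := mul_le_mul_of_nonneg_left (e4.trans e5) hn.le
      nlinarith
    rw [div_mul_eq_mul_div, le_div_iff₀ (by positivity)]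
    rcases eq_or_lt_of_le ha0 with h | h
    · rw [← h]; simp; positivity
    · have : ((n + l) * a) * a ≤ (n * b) * a := by nlinarith
      have := le_of_mul_le_mul_right this h
      linarith
  have hKc : ((Real.toNNReal (n / (n + l)) : NNReal) : ℝ) = n / (n + l) :=
    Real.coe_toNNReal _ (by positivity)
  have hK : Real.toNNReal (n / (n + l)) < 1 := by
    rw [← NNReal.coe_lt_coe, hKc]
    show n / (n + l) < 1
    rw [div_lt_one (by positivity)]; linarith
  have hCW : ContractingWith (Real.toNNReal (n / (n + l))) T := by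
    refine ⟨hK, LipschitzWith.of_dist_le_mul fun f g => ?_⟩
    rw [dist_eq_norm, dist_eq_norm, hKc]
    exact hcontr f g
  set f0 := ContractingWith.fixedPoint T hCW with hf0
  have hfix : T f0 = f0 := ContractingWith.fixedPoint_isFixedPt (f := T) hCW
  have hfix' : (S f0) =ᵐ[volume] f0 := by
    have h1 := (hS f0).memLp.coeFn_toLp
    have h2 : ((hS f0).memLp.toLp (S f0) : Lp ℝ 2 (volume : Measure ℂ)) = f0 := hfix
    rw [h2] at h1
    exact h1.symm
  refine ⟨S f0, GS f0, hS f0, fun v H hv => ?_⟩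
  have e := hSeq f0 v H hv
  have i1 : Integrable (fun z => S f0 z * v z) := int_mul (hS f0).memLp hv.memLp
  have i2 : Integrable (fun z => min (f0 z) (w' z) * v z) :=
    int_mul (hmin f0 (Lp.memLp f0)) hv.memLp
  have i3 : Integrable (fun z => one z * v z) := int_mul hone2 hv.memLp
  have h1 : ∫ z, data f0 z * v z = (∫ z, v z) + n * ∫ z, min (f0 z) (w' z) * v z := by
    rw [← int_ind_mul hU hv, ← integral_const_mul, ← integral_add i3 (i2.const_mul n)]
    refine integral_congr_ae (Eventually.of_forall fun z => ?_)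
    show data f0 z * v z = one z * v z + n * (min (f0 z) (w' z) * v z)
    simp only [data]; ring
  have h2 : ∫ z, max (S f0 z - w' z) 0 * v z
      = (∫ z, S f0 z * v z) - ∫ z, min (f0 z) (w' z) * v z := by
    rw [← integral_sub i1 i2]
    refine integral_congr_ae ?_
    filter_upwards [hfix'] with z hz
    rw [hz, ← sub_mul]
    congr 1
    rcases le_total (f0 z) (w' z) with h | h
    · rw [min_eq_left h, max_eq_right (by linarith)]; ring
    · rw [min_eq_right h, max_eq_left (by linarith)]
  rw [h1] at e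
  rw [h2]
  linarith

end Pool.Agent.H41.Ev
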